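import Mathlib
import Pool.Agent.MP_e8e0b6_ag.Defs

/-!
Gluing of a sum of line bundles and of a spray from local data.
-/

set_option linter.unusedSectionVars false

open AlgebraicGeometry CategoryTheory Limits AffineSpace

namespace Pool.Agent.MP_e8e0b6_ag

variable {n : ℕ} {W W' : Scheme.{0}}

/-- A diagonal linear map of affine space. -/
noncomputable def diag (g : Fin n → Γ(W, ⊤)) : 𝔸(Fin n; W) ⟶ 𝔸(Fin n; W) :=
  linMap (Matrix.diagonal g)

@[reassoc (attr := simp)]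
theorem diag_over (g : Fin n → Γ(W, ⊤)) : diag g ≫ 𝔸(Fin n; W) ↘ W = 𝔸(Fin n; W) ↘ W :=
  homOfVector_over _ _

@[simp]
theorem diag_coord (g : Fin n → Γ(W, ⊤)) (a : Fin n) :
    (diag g).appTop (coord W a) = (𝔸(Fin n; W) ↘ W).appTop (g a) * coord W a := by
  rw [diag, linMap, homOfVector_appTop_coord, Finset.sum_eq_single a]
  · simp
  · intro b _ hb
    simp [Matrix.diagonal_apply_ne' _ hb]
  · simp

theorem appTop_over {Z : Scheme.{0}} (q : Z ⟶ 𝔸(Fin n; W)) (x : Γ(W, ⊤)) :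
    q.appTop ((𝔸(Fin n; W) ↘ W).appTop x) = (q ≫ 𝔸(Fin n; W) ↘ W).appTop x := rfl

theorem appTop_comp {Z Y Y' : Scheme.{0}} (q : Z ⟶ Y) (q' : Y ⟶ Y') (x : Γ(Y', ⊤)) :
    (q ≫ q').appTop x = q.appTop (q'.appTop x) := rfl

@[reassoc]
theorem diag_diag (g g' : Fin n → Γ(W, ⊤)) : diag g ≫ diag g' = diag (g * g') := by
  refine hom_ext (by simp) fun a => ?_
  rw [appTop_comp, diag_coord, map_mul, appTop_over, diag_over, diag_coord, diag_coord,
    Pi.mul_apply, map_mul]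
  ring

theorem diag_one : diag (1 : Fin n → Γ(W, ⊤)) = 𝟙 _ :=
  hom_ext (by simp) fun a => by rw [diag_coord]; simp

@[reassoc]
theorem map_diag (q : W' ⟶ W) (g : Fin n → Γ(W, ⊤)) :
    map (Fin n) q ≫ diag g = diag (fun a => q.appTop (g a)) ≫ map (Fin n) q := by
  refine hom_ext (by simp) fun a => ?_
  rw [appTop_comp, appTop_comp, diag_coord, map_mul, appTop_over, map_over, map_appTop_coord,
    diag_coord]
  rfl

/-- The zero section of affine space. -/
noncomputable abbrev zeroSec (n : ℕ) (W : Scheme.{0}) : W ⟶ 𝔸(Fin n; W) :=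
  homOfVector (𝟙 _) fun _ => 0

@[reassoc]
theorem zero_diag (g : Fin n → Γ(W, ⊤)) : zeroSec n W ≫ diag g = zeroSec n W := by
  refine hom_ext (by simp) fun a => ?_
  rw [appTop_comp, diag_coord, map_mul, homOfVector_appTop_coord, mul_zero]

@[reassoc]
theorem zero_map (q : W' ⟶ W) : zeroSec n W' ≫ map (Fin n) q = q ≫ zeroSec n W := by
  refine hom_ext (by simp) fun a => ?_
  rw [appTop_comp, appTop_comp, map_appTop_coord, homOfVector_appTop_coord,
    homOfVector_appTop_coord, map_zero]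

variable {k : Type} [Field k] {X : Scheme.{0}}

theorem exists_glued_aux {𝒰 : X.OpenCover.{0}} [Preorder 𝒰.I₀] [𝒰.LocallyDirected]
    (d : 𝒰.RelativeGluingData) : ∃ (E : Scheme.{0}) (p : E ⟶ X) (e : ∀ U, d.functor.obj U ⟶ E),
      (∀ U, IsPullback (e U) (d.natTrans.app U) p (𝒰.f U)) ∧
      (∀ U V (h : U ⟶ V), d.functor.map h ≫ e V = e U) ∧
      (∀ (Y : Scheme.{0}) (s : ∀ U, d.functor.obj U ⟶ Y),
        (∀ U V (h : U ⟶ V), d.functor.map h ≫ s V = s U) → ∃ t, ∀ U, e U ≫ t = s U) ∧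
      ∀ (Y : Scheme.{0}) (t t' : E ⟶ Y), (∀ U, e U ≫ t = e U ≫ t') → t = t' :=
  ⟨d.glued, d.toBase, colimit.ι d.functor, fun U => (d.isPullback_natTrans_ι_toBase U).flip,
    fun _ _ h => colimit.w d.functor h, fun Y s hs => ⟨colimit.desc d.functor
      ⟨Y, s, fun U V h => (hs U V h).trans (Category.comp_id _).symm⟩, colimit.ι_desc _⟩,
    fun _ _ _ h => colimit.hom_ext h⟩

theorem exists_glued (P : X.Opens → Prop)
    (hb : ∀ (x : X) (V : X.Opens), x ∈ V → ∃ U, P U ∧ x ∈ U ∧ U ≤ V)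
    (c : ∀ U V : {U // P U}, U ≤ V → Fin n → Γ(U.1, ⊤))
    (hu : ∀ U V h a, IsUnit (c U V h a)) (h1 : ∀ U, c U U le_rfl = 1)
    (hc : ∀ U V W (h : U ≤ V) (h' : V ≤ W), c U W (h.trans h') =
      c U V h * fun a => (X.homOfLE h).appTop (c V W h' a)) :
    ∃ (E : Scheme.{0}) (p : E ⟶ X) (e : ∀ U : {U // P U}, 𝔸(Fin n; U.1) ⟶ E),
      (∀ U, IsPullback (e U) (𝔸(Fin n; U.1) ↘ U.1) p U.1.ι) ∧
      (∀ U V (h : U ≤ V), diag (c U V h) ≫ map (Fin n) (X.homOfLE h) ≫ e V = e U) ∧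
      (∀ (Y : Scheme.{0}) (s : ∀ U : {U // P U}, 𝔸(Fin n; U.1) ⟶ Y), (∀ U V (h : U ≤ V),
        diag (c U V h) ≫ map (Fin n) (X.homOfLE h) ≫ s V = s U) → ∃ t, ∀ U, e U ≫ t = s U) ∧
      (∀ (Y : Scheme.{0}) (t t' : E ⟶ Y), (∀ U, e U ≫ t = e U ≫ t') → t = t') ∧
      (∀ (Y : Scheme.{0}) (g : ∀ U : {U // P U}, U.1.toScheme ⟶ Y), (∀ (U V : {U // P U})
        (h : U ≤ V), X.homOfLE h ≫ g V = g U) → ∃ z, ∀ U, U.1.ι ≫ z = g U) ∧
      ∀ (Y : Scheme.{0}) (z z' : X ⟶ Y), (∀ U : {U // P U}, U.1.ι ≫ z = U.1.ι ≫ z') → z = z' := by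
  let 𝒰 : X.OpenCover := Scheme.Cover.mkOfCovers {U // P U} (fun U => U.1) (fun U => U.1.ι)
    fun x => by
      obtain ⟨U, h1, h2, -⟩ := hb x ⊤ trivial
      exact ⟨⟨U, h1⟩, ⟨x, h2⟩, rfl⟩
  let _ : Preorder 𝒰.I₀ := inferInstanceAs (Preorder {U // P U})
  let _ : 𝒰.LocallyDirected := .ofIsBasisOpensRange (fun {U V} => by
    change U.1 ≤ V.1 ↔ U.1.ι.opensRange ≤ V.1.ι.opensRange
    rw [Scheme.Opens.opensRange_ι, Scheme.Opens.opensRange_ι]) (by
    rw [TopologicalSpace.Opens.isBasis_iff_nbhd]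
    intro V x hx
    obtain ⟨U, h1, h2, h3⟩ := hb x V hx
    exact ⟨U, ⟨⟨U, h1⟩, U.opensRange_ι⟩, h2, h3⟩)
  have hiso : ∀ U V h, IsIso (diag (c U V h)) := fun U V h => by
    choose g hg using fun a => (hu U V h a).exists_right_inv
    have e : c U V h * g = 1 := funext hg
    exact ⟨diag g, by rw [diag_diag, e, diag_one], by rw [diag_diag, mul_comm, e, diag_one]⟩
  have hpb : ∀ U V h, IsPullback (diag (c U V h) ≫ map (Fin n) (X.homOfLE h))
      (𝔸(Fin n; U.1) ↘ U.1) (𝔸(Fin n; V.1) ↘ V.1) (X.homOfLE h) := fun U V h => by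
    have := hiso U V h
    have := (IsPullback.of_horiz_isIso (fst := diag (c U V h)) (g := 𝟙 _)
      ⟨(diag_over _).trans (Category.comp_id _).symm⟩).paste_horiz
      (isPullback_map (n := Fin n) (X.homOfLE h))
    rwa [Category.id_comp] at this
  let F : {U // P U} ⥤ Scheme :=
    { obj := fun U => 𝔸(Fin n; U.1)
      map := fun {U V} h => diag (c U V h.le) ≫ map (Fin n) (X.homOfLE h.le)
      map_id := fun U => by
        rw [h1, diag_one, Scheme.homOfLE_rfl, AffineSpace.map_id, Category.id_comp]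
      map_comp := fun {U V W} h h' => by
        rw [Category.assoc, map_diag_assoc, diag_diag_assoc, ← AffineSpace.map_comp,
          Scheme.homOfLE_homOfLE, ← hc] }
  let d : 𝒰.RelativeGluingData :=
    { functor := F
      natTrans :=
        { app := fun U => 𝔸(Fin n; U.1) ↘ U.1
          naturality := fun U V h => (hpb U V h.le).w }
      equifibered := fun U V h => hpb U V h.le }
  obtain ⟨E, p, e, h2, h3, h4, h5⟩ := exists_glued_aux d
  exact ⟨E, p, e, h2, fun U V h => (Category.assoc _ _ _).symm.trans (h3 U V (homOfLE h)),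
    fun Y s hs => h4 Y s fun U V h => (Category.assoc _ _ _).trans (hs U V h.le), h5,
    fun Y g hg => ⟨𝒰.glueMorphismsOfLocallyDirected g fun h => hg _ _ h.le,
      𝒰.map_glueMorphismsOfLocallyDirected _ _⟩, fun Y z z' h => 𝒰.hom_ext _ _ h⟩

theorem exists_spray (f : X ⟶ Spec (.of k)) (P : X.Opens → Prop)
    (hb : ∀ (x : X) (V : X.Opens), x ∈ V → ∃ U, P U ∧ x ∈ U ∧ U ≤ V)
    (hP : ∀ U W, P U → IsAffineOpen W → W ≤ U → W ≠ ⊥ → P W)
    (c : ∀ U V : {U // P U}, U ≤ V → Fin n → Γ(U.1, ⊤))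
    (hu : ∀ U V h a, IsUnit (c U V h a)) (h1 : ∀ U, c U U le_rfl = 1)
    (hc : ∀ U V W (h : U ≤ V) (h' : V ≤ W), c U W (h.trans h') =
      c U V h * fun a => (X.homOfLE h).appTop (c V W h' a))
    (s : ∀ U : {U // P U}, 𝔸(Fin n; U.1) ⟶ X)
    (hs : ∀ U V (h : U ≤ V), diag (c U V h) ≫ map (Fin n) (X.homOfLE h) ≫ s V = s U)
    (hf : ∀ U, s U ≫ f = 𝔸(Fin n; U.1) ↘ U.1 ≫ U.1.ι ≫ f) (h0 : ∀ U, zeroSec n _ ≫ s U = U.1.ι)
    (hd : ∀ v : Spec (.of (DualNumber k)) ⟶ X, v ≫ f = epsProj k → ∃ (U : {U // P U})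
      (x : Spec (.of k) ⟶ U.1) (w : Spec (.of (DualNumber k)) ⟶ 𝔸(Fin n; U.1)),
      x ≫ U.1.ι = epsPoint k ≫ v ∧ w ≫ 𝔸(Fin n; U.1) ↘ U.1 = epsProj k ≫ x ∧
      epsPoint k ≫ w = x ≫ zeroSec n _ ∧ w ≫ s U = v) : ∃ σ : Spray f, σ.Dominating := by
  obtain ⟨E, p, e, hp, hw, hE, hE', hX, hX'⟩ := exists_glued P hb c hu h1 hc
  obtain ⟨t, ht⟩ := hE X s hs
  obtain ⟨z, hz⟩ := hX E (fun U => zeroSec n _ ≫ e U) fun U V h => by
    rw [← hw U V h, zero_diag_assoc, zero_map_assoc]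
  let σ : Spray f :=
    { E := E
      p := p
      zero := z
      rank := n
      ι := {U // P U}
      U := fun U => U.1
      cover := fun x => by
        obtain ⟨U, h1, h2, -⟩ := hb x ⊤ trivial
        exact ⟨⟨U, h1⟩, h2⟩
      e := e
      isPullback := hp
      zero_eq := fun U => (hz U).symm
      linear := fun U V W hW hi hj => by
        by_cases h : W = ⊥
        · subst h
          have : IsEmpty 𝔸(Fin n; (⊥ : X.Opens)) :=
            ⟨fun x => ((𝔸(Fin n; (⊥ : X.Opens)) ↘ (⊥ : X.Opens)) x).2⟩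
          exact ⟨0, (isInitialOfIsEmpty).hom_ext _ _⟩
        · let W' : {U // P U} := ⟨W, hP _ _ U.2 hW hi h⟩
          choose g hg using fun a => (hu W' U hi a).exists_left_inv
          have e : g * c W' U hi = 1 := funext hg
          refine ⟨Matrix.diagonal (g * c W' V hj), ?_⟩
          change _ = diag _ ≫ _
          rw [← diag_diag_assoc, hw W' V hj, ← hw W' U hi, diag_diag_assoc, e, diag_one,
            Category.id_comp]
      s := t
      s_over := hE' _ _ _ fun U => by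
        rw [← Category.assoc, ht, hf, ← Category.assoc (e U), (hp U).w, Category.assoc]
      zero_s := hX' _ _ _ fun U => by
        rw [← Category.assoc, hz, Category.assoc, ht, h0, Category.comp_id] }
  refine ⟨σ, fun v hv => ?_⟩
  obtain ⟨U, x, w, e1, e2, e3, e4⟩ := hd v hv
  refine ⟨w ≫ e U, ?_, ?_, ?_⟩
  · change (w ≫ e U) ≫ p = _
    rw [Category.assoc, (hp U).w, ← Category.assoc, e2, Category.assoc, e1]
  · change _ = _ ≫ _ ≫ z
    rw [← Category.assoc, e3, Category.assoc, ← hz, ← Category.assoc, e1, Category.assoc]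
  · change (w ≫ e U) ≫ t = _
    rw [Category.assoc, ht, e4]

end Pool.Agent.MP_e8e0b6_ag
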