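import Pool.Agent.MP_e8e0b6_ag.S.Datum
import Pool.Agent.MP_e8e0b6_ag.S.Bundle

/-!
A smooth variety on which every tangent vector comes from a local spray of rank one is elliptic.
-/

set_option linter.unusedSectionVars false

open AlgebraicGeometry CategoryTheory Limits IsLocalRing TrivSqZeroExt AffineSpace MvPolynomial

namespace Pool.Agent.MP_e8e0b6_ag

section
variable {n : ℕ} {W W' : Scheme.{0}} [IsAffine W] [IsAffine W']

theorem isoSpec_inv_app (b : Γ(W, ⊤)) :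
    W.isoSpec.inv.appTop b = (Scheme.ΓSpecIso Γ(W, ⊤)).inv b := by
  have : W.isoSpec.inv.appTop = (Scheme.ΓSpecIso Γ(W, ⊤)).inv := by
    rw [← cancel_epi (Scheme.ΓSpecIso Γ(W, ⊤)).hom, Iso.hom_inv_id, ← Scheme.toSpecΓ_appTop,
      ← Scheme.Hom.comp_appTop, Scheme.isoSpec_inv_toSpecΓ, Scheme.Hom.id_appTop]
  rw [this]

theorem sp_app {A T : Type} [CommRing A] [CommRing T] (ρ : A →+* T) (b : A) :
    (sp ρ).appTop ((Scheme.ΓSpecIso (.of A)).inv b) = (Scheme.ΓSpecIso (.of T)).inv (ρ b) :=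
  (congrArg (fun g => g.hom b) (Scheme.ΓSpecIso_inv_naturality (CommRingCat.ofHom ρ))).symm

theorem inv_over : (isoOfIsAffine (Fin n) W).inv ≫ 𝔸(Fin n; W) ↘ W = sp C ≫ W.isoSpec.inv :=
  isoOfIsAffine_inv_over _

theorem inv_diag_map (g : Fin n → Γ(W', ⊤)) (q : W' ⟶ W) :
    (isoOfIsAffine (Fin n) W').inv ≫ diag g ≫ AffineSpace.map (Fin n) q =
      sp (eval₂Hom (C.comp q.appTop.hom) fun a => C (g a) * X a) ≫
        (isoOfIsAffine (Fin n) W).inv := by
  refine hom_ext ?_ fun a => ?_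
  · rw [Category.assoc, Category.assoc, Category.assoc, map_over, diag_over_assoc, inv_over,
      sp_comp_assoc, eval₂Hom_comp_C, ← sp_comp_assoc, ← Category.assoc, inv_over, Category.assoc]
    exact congrArg _ (Scheme.isoSpec_inv_naturality q).symm
  · rw [appTop_comp, appTop_comp, appTop_comp, map_appTop_coord, diag_coord, map_mul, appTop_over,
      inv_over, appTop_comp, isoSpec_inv_app, isoOfIsAffine_inv_appTop_coord,
      isoOfIsAffine_inv_appTop_coord]
    refine Eq.trans ?_ (sp_app _ _).symm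
    rw [eval₂Hom_X', map_mul]
    exact congrArg (· * _) (sp_app _ _)

theorem inv_zero : W.isoSpec.inv ≫ zeroSec n W =
    sp constantCoeff ≫ (isoOfIsAffine (Fin n) W).inv := by
  refine hom_ext ?_ fun a => ?_
  · rw [Category.assoc, Category.assoc, homOfVector_over, inv_over, sp_comp_assoc,
      constantCoeff_comp_C, sp_id, Category.comp_id]
    exact (Category.id_comp _).symm
  · rw [appTop_comp, appTop_comp, homOfVector_appTop_coord, isoOfIsAffine_inv_appTop_coord,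
      map_zero]
    refine Eq.trans ?_ (sp_app _ _).symm
    rw [constantCoeff_X, map_zero]

end

variable {k K : Type} [Field k] [IsAlgClosed k] [Field K] [Algebra k K] {X : Scheme.{0}}
  {f : X ⟶ Spec (.of k)} {η : Spec (.of K) ⟶ X}

/-- The nonempty affine open subsets. -/
abbrev Aff (X : Scheme.{0}) := {U : X.Opens // IsAffineOpen U ∧ U ≠ ⊥}

instance (U : Aff X) : IsAffine U.1 := U.2.1

/-- The chart of a nonempty affine open subset. -/
noncomputable def affChart (H : IsGen η) (hK : η ≫ f = sp (algebraMap k K)) (U : Aff X) :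
    Chart f η :=
  have : Nontrivial Γ(U.1, ⊤) := by
    obtain ⟨x, hx⟩ := (TopologicalSpace.Opens.ne_bot_iff_nonempty _).1 U.2.2
    exact PrimeSpectrum.nonempty_iff_nontrivial.1 ⟨U.1.toScheme.isoSpec.hom ⟨x, hx⟩⟩
  let j : Spec (.of Γ(U.1, ⊤)) ⟶ X := U.1.toScheme.isoSpec.inv ≫ U.1.ι
  letI := (sp_surj (j ≫ f)).choose.toAlgebra
  H.mk' hK Γ(U.1, ⊤) j (sp_surj (j ≫ f)).choose_spec.symm

variable (H : IsGen η) (hK : η ≫ f = sp (algebraMap k K))

theorem affChart_j (U : Aff X) : (affChart H hK U).j = U.1.toScheme.isoSpec.inv ≫ U.1.ι := rfl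

theorem range_affChart (U : Aff X) : Set.range (affChart H hK U).j = U.1 := by
  change Set.range (U.1.toScheme.isoSpec.inv ≫ U.1.ι) = _
  rw [Scheme.Hom.comp_base, TopCat.coe_comp, Set.range_comp,
    U.1.toScheme.isoSpec.inv.surjective.range_eq, Set.image_univ, Scheme.Opens.range_ι]

theorem affChart_res {U V : Aff X} (h : U.1 ≤ V.1) (b : Γ(V.1, ⊤)) :
    (affChart H hK U).κ ((X.homOfLE h).appTop b) = (affChart H hK V).κ b := by
  refine DFunLike.congr_fun (sp_cancel (affChart H hK V).j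
    (ρ := (affChart H hK U).κ.comp (X.homOfLE h).appTop.hom) ?_) b
  rw [(affChart H hK V).gen, ← sp_comp_assoc]
  refine Eq.trans (congrArg _ ?_) (affChart H hK U).gen
  rw [affChart_j, affChart_j, ← X.homOfLE_ι h, ← Scheme.isoSpec_inv_naturality_assoc]
  rfl

variable [X.IsSeparated] {I : Type} {c : I → Chart f η} {hc : ∀ i, (c i).Coord} {n : ℕ}
  (d : Fin n → Datum (mkModel c hc))

/-- Trivialisations of the line bundles over `U`. -/
def Triv (U : Aff X) (i : I) (h : Fin n → K) : Prop :=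
  (U.1 : Set X) ⊆ Set.range (c i).j ∧
    ∀ l, Gen ((mkModel c hc).B i) (d l).a (affChart H hK U).κ.range (h l)

theorem Triv.subset {U : Aff X} {i : I} {h : Fin n → K} (T : Triv H hK d U i h) :
    ((mkModel c hc).B i : Set K) ⊆ (affChart H hK U).κ.range := by
  obtain ⟨ρ, -, hρ⟩ := (c i).exists_res (affChart H hK U) (range_affChart H hK U ▸ T.1)
  rintro _ ⟨a, rfl⟩
  exact ⟨_, hρ a⟩

theorem Triv.mono {U V : Aff X} (hle : U.1 ≤ V.1) {i : I} {h : Fin n → K} (T : Triv H hK d V i h) :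
    Triv H hK d U i h :=
  ⟨fun _ hx => T.1 (hle hx), fun l => (T.2 l).mono (by
    rintro _ ⟨b, rfl⟩; exact ⟨_, affChart_res H hK hle b⟩)⟩

theorem exists_triv (hcov : ∀ x, ∃ i, x ∈ Set.range (c i).j) (x : X) (V : X.Opens) (hx : x ∈ V) :
    ∃ U : Aff X, (∃ i h, Triv H hK d U i h) ∧ x ∈ U.1 ∧ U.1 ≤ V := by
  classical
  obtain ⟨i, p, rfl⟩ := hcov x
  choose h hh using fun l => (mkModel c hc).exists_gen (i := i) (loc_locS (p := p.asIdeal) (c i).inj)
    (by rintro _ ⟨a, rfl⟩; exact map_mem_locS _) (d l).a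
  choose T hT hT' using fun l => (mkModel c hc).den_fg i (d l).a
  obtain ⟨s, hs, hsp⟩ := exists_den (r := (c i).κ) (p := p.asIdeal)
    (S := ⋃ l, (· / h l) '' (T l : Set K))
    (Set.finite_iUnion fun l => (Finset.finite_toSet _).image _) (by
      intro ω hω
      obtain ⟨l, β, hβ, rfl⟩ := Set.mem_iUnion.1 hω
      exact (hh l).2.2 β (hT l β hβ))
  obtain ⟨_, ⟨U, hU, rfl⟩, hxU, hle⟩ := X.isBasis_affineOpens.exists_subset_of_mem_open
    (show (c i).j p ∈ (V ⊓ (c i).j ''ᵁ PrimeSpectrum.basicOpen s : X.Opens) from ⟨hx, p, hsp, rfl⟩)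
    (TopologicalSpace.Opens.isOpen _)
  let U' : Aff X := ⟨U, hU, (TopologicalSpace.Opens.ne_bot_iff_nonempty _).2 ⟨_, hxU⟩⟩
  have h1 : (U : Set X) ⊆ Set.range (c i).j := fun y hy => by
    obtain ⟨q, -, hq⟩ := (hle hy).2
    exact ⟨q, hq⟩
  obtain ⟨ρ, hρ, hρ'⟩ := (c i).exists_res (affChart H hK U') (range_affChart H hK U' ▸ h1)
  have h2 : IsUnit (ρ s) := by
    by_contra h3
    obtain ⟨m, hm, h4⟩ := Ideal.exists_le_maximal _ (mt Ideal.span_singleton_eq_top.1 h3)
    obtain ⟨q, hq, h5⟩ := (hle (show (affChart H hK U').j ⟨m, hm.isPrime⟩ ∈ (U : Set X) from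
      range_affChart H hK U' ▸ ⟨_, rfl⟩)).2
    rw [← hρ, Scheme.Hom.comp_apply] at h5
    exact hq ((c i).j.isOpenEmbedding.injective h5 ▸ h4 (Ideal.mem_span_singleton_self _))
  obtain ⟨u, hu⟩ := h2.exists_right_inv
  refine ⟨U', ⟨i, h, h1, fun l => ⟨(hh l).1, (hh l).2.1, fun β hβ => ?_⟩⟩, hxU,
    fun y hy => (hle hy).1⟩
  obtain ⟨a, ha, rfl⟩ := hT' l β hβ
  rw [Finset.sum_div]
  refine Subring.sum_mem _ fun t ht => ?_
  obtain ⟨b, hb⟩ := ha t
  obtain ⟨b', hb'⟩ := hs _ (Set.mem_iUnion.2 ⟨l, t, ht, rfl⟩)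
  refine ⟨ρ b * (ρ b' * u), ?_⟩
  rw [map_mul, map_mul, hρ', hρ', ← hb', ← hρ' s, mul_assoc, ← map_mul, hu, map_one, mul_one,
    mul_div_assoc]
  exact congrArg (· * _) hb

theorem Triv.exists_unit {U V : Aff X} (hle : U.1 ≤ V.1) {i j : I} {h h' : Fin n → K}
    (T : Triv H hK d U i h) (T' : Triv H hK d V j h') (l : Fin n) (m : ℕ) :
    ∃ b : Γ(U.1, ⊤), IsUnit b ∧ (affChart H hK U).κ b = (h l / h' l) ^ m := by
  have T'' := T'.mono H hK d hle
  have key := fun W (hW : Loc W) (h1 : (affChart H hK U).κ.range ≤ W) =>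
    ((mkModel c hc).un_gen hW (fun b hb => h1 (T.subset H hK d hb))
      (fun b hb => h1 (T''.subset H hK d hb)) ((T.2 l).mono h1) ((T''.2 l).mono h1)).pow m
  obtain ⟨b, hb⟩ := mem_of_loc fun W hW h1 => (key W hW h1).1
  obtain ⟨b', hb'⟩ := mem_of_loc fun W hW h1 => (key W hW h1).2.2
  have : b * b' = 1 := (affChart H hK U).inj (by
    rw [map_one, map_mul, hb, hb', mul_inv_cancel₀ (key ⊤ loc_top le_top).2.1])
  exact ⟨b, IsUnit.of_mul_eq_one b' this, hb⟩

section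
variable {m : Fin n → ℕ} {Ω : Type} [Field Ω] {ι : MvPolynomial (Fin n) K →+* Ω} {φ : K →+* Ω}
  (S : State (mkModel c hc) d m ι φ)

/-- The coordinates on the total space above a chart. -/
noncomputable def tot (ι : MvPolynomial (Fin n) K →+* Ω) (m : Fin n → ℕ) (c₀ : Chart f η)
    (h : Fin n → K) : MvPolynomial (Fin n) c₀.A →+* Ω :=
  ι.comp (crd c₀.κ fun l => (h l ^ m l)⁻¹)

theorem tot_C (c₀ : Chart f η) (h : Fin n → K) (a : c₀.A) :
    tot ι m c₀ h (C a) = ι (C (c₀.κ a)) := congrArg ι (crd_C _ _ a)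

theorem tot_X (c₀ : Chart f η) (h : Fin n → K) (l : Fin n) :
    tot ι m c₀ h (.X l) = ι (.X l) / ι (C (h l)) ^ m l := by
  change ι (crd _ _ _) = _
  rw [crd_X, map_mul, mul_comm, div_eq_mul_inv, ← map_pow, ← C_pow]
  exact congrArg _ (map_inv₀ (ι.comp C) _)

theorem tot_comp (c₀ c₁ : Chart f η) (h h' : Fin n → K) (h0 : ∀ l, h l ≠ 0) (ρ : c₁.A →+* c₀.A)
    (hρ : ∀ a, c₀.κ (ρ a) = c₁.κ a) (g : Fin n → c₀.A) (hg : ∀ l, c₀.κ (g l) = (h l / h' l) ^ m l) :
    (tot ι m c₀ h).comp (eval₂Hom (C.comp ρ) fun a => C (g a) * .X a) = tot ι m c₁ h' := by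
  refine ringHom_ext (fun a => by simp [tot_C, hρ]) fun l => ?_
  have h1 : ι (C (h l)) ≠ 0 := (map_ne_zero (ι.comp C)).2 (h0 l)
  rw [RingHom.comp_apply, eval₂Hom_X', map_mul, tot_C, tot_X, tot_X, hg, C_pow, map_pow,
    show ι (C (h l / h' l)) = ι (C (h l)) / ι (C (h' l)) from map_div₀ (ι.comp C) _ _, div_pow]
  field_simp

variable {c₀ : Chart f η} {i : I} {h : Fin n → K}
  (hi : ((mkModel c hc).B i : Set K) ⊆ c₀.κ.range)
  (hh : ∀ l, Gen ((mkModel c hc).B i) (d l).a c₀.κ.range (h l))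
include S hh

theorem tot_inj : Function.Injective (tot ι m c₀ h) :=
  S.inj.comp (crd_inj _ _ c₀.inj fun l => inv_ne_zero (pow_ne_zero _ (hh l).2.1))

include hK hi in
theorem exists_tot [LocallyOfFiniteType f] :
    ∃ γ : Spec (.of (MvPolynomial (Fin n) c₀.A)) ⟶ X, γ ≫ f = sp C ≫ c₀.j ≫ f ∧
      sp (tot ι m c₀ h) ≫ γ = sp φ ≫ η := by
  refine exists_glue (tot_inj d S hh) _ f _ ?_ fun p _ => ?_
  · rw [Category.assoc, hK, c₀.base, sp_comp, sp_comp, sp_comp]
    congr 1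
    ext a
    simp [S.const, tot_C, c₀.comm]
  · have h1 : c₀.κ.range ≤ (locS (tot ι m c₀ h) p).comap (ι.comp C) := by
      rintro _ ⟨a, rfl⟩
      have := map_mem_locS (r := tot ι m c₀ h) (p := p) (C a)
      rwa [tot_C] at this
    obtain ⟨j, hj⟩ := S.good i _ h (loc_locS (tot_inj d S hh)) (fun b hb => h1 (hi hb))
      (fun l => (hh l).mono h1) fun l => by
        have := map_mem_locS (r := tot ι m c₀ h) (p := p) (.X l)
        rwa [tot_X] at this
    refine ⟨sp ((φ.comp (c j).κ).codRestrict _ fun a => hj ⟨a, rfl⟩) ≫ (c j).j, ?_⟩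
    refine Eq.trans ?_ (congrArg _ (c j).gen)
    rw [sp_comp_assoc, sp_comp_assoc]
    rfl

theorem tot_zero {γ : Spec (.of (MvPolynomial (Fin n) c₀.A)) ⟶ X}
    (hγ : sp (tot ι m c₀ h) ≫ γ = sp φ ≫ η) : sp constantCoeff ≫ γ = c₀.j := by
  refine ext_sp c₀.inj ?_
  rw [c₀.gen, sp_comp_assoc, comp_eq (tot_inj d S hh) hγ (ρ := RingHom.id K), sp_id,
    Category.id_comp]
  have hK : ∀ a, Ext (tot ι m c₀ h) (c₀.κ.comp constantCoeff) (ι (C a)) a := fun a => by
    obtain ⟨p, q, hq, e⟩ := c₀.frac a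
    exact ⟨C p, C q, by simpa using (map_ne_zero_iff _ c₀.inj).2 hq,
      by rw [tot_C, tot_C, ← map_mul, ← C_mul, e], by simpa using e⟩
  intro g
  have := ((S.jet 0 g).comp (fstR K)).trans (RingHom.id Ω) (r' := tot ι m c₀ h)
    (θ' := c₀.κ.comp constantCoeff) fun x => by
      rw [show ((fstR K).comp (jetAt 0)) x = constantCoeff x from fst_jetAt 0 x, RingHom.id_apply]
      induction x using MvPolynomial.induction_on with
      | C a => simpa using hK a
      | add p q hp hq => simpa using hp.add hq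
      | mul_X p l hp =>
        have h1 := hp.mul ((Ext.of (.X l)).mul ((hK (h l)).pow (m l)))
        have h2 : ι (C (h l)) ≠ 0 := (map_ne_zero (ι.comp C)).2 (hh l).2.1
        rw [tot_X, div_mul_cancel₀ _ (pow_ne_zero _ h2)] at h1
        simpa using h1
  simpa using this

include hi in
theorem tot_dom {γ : Spec (.of (MvPolynomial (Fin n) c₀.A)) ⟶ X}
    (hγ : sp (tot ι m c₀ h) ≫ γ = sp φ ≫ η) (hi' : Set.range c₀.j ⊆ Set.range (c i).j)
    (c' : Chart f η) (w : c'.A →+* DualNumber k) (hw : Span c'.κ w d) (e : c₀.A →+* k)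
    (he : sp e ≫ c₀.j = sp ((fstR k).comp w) ≫ c'.j) (he' : ∀ a, e (algebraMap k _ a) = a) :
    ∃ a : Fin n → k, sp (eval₂Hom ((inlR k).comp e) fun l => inr (a l)) ≫ γ = sp w ≫ c'.j := by
  obtain ⟨a, val, h1, h2⟩ := hw
  choose b hb using fun l => hi (hh l).1.1
  obtain ⟨ρ, hρ, hρ'⟩ := (c i).exists_res c₀ hi'
  have hu : ∀ l, a l ≠ 0 → e (b l) ≠ 0 := fun l hl => by
    have h3 : c₀.κ.range ≤ dom c₀.κ e := by
      rintro _ ⟨x, rfl⟩; exact mem_dom.2 ⟨_, Ext.of x⟩
    obtain ⟨s, hs, h4⟩ := exists_den_mul ((mkModel c hc).B i) (dom c₀.κ e) (d l).a 1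
      ⟨1, one_mem _, Un.one, by simp⟩ fun g hg => by
        obtain ⟨t, ht⟩ := mem_dom.1 ((h1 l hl).1 g hg)
        obtain ⟨p, q, hq, h5, -⟩ := (c i).transfer c' (e := e.comp ρ)
          (by rw [← sp_comp_assoc, hρ, he]) ht
        exact ⟨_, ⟨q, rfl⟩, hρ' q ▸ (Ext.of (ρ q)).un c₀.inj hq, p,
          by rw [one_mul, mul_comm]; exact h5.symm⟩
    have h5 : Un (dom c₀.κ e) (c₀.κ (b l)) := by
      rw [hb]
      refine ⟨h3 (hi (hh l).1.1), (hh l).2.1, hs.mem_of_mul ?_⟩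
      simpa [div_eq_mul_inv] using h3 ((hh l).2.2 _ h4)
    exact ((Ext.of (b l)).isUnit c₀.inj h5).ne_zero
  let a' : Fin n → k := fun l => a l / e (b l) ^ m l
  refine ⟨a', ?_⟩
  let θ : MvPolynomial (Fin n) c₀.A →+* DualNumber c₀.A :=
    eval₂Hom (inlR _) fun l => inr (algebraMap k _ (a' l))
  have e1 : (dmap e).comp θ = eval₂Hom ((inlR k).comp e) fun l => inr (a' l) :=
    ringHom_ext (fun a => by simp [θ, dmap, algebraMap_eq_inl]) fun l => by
      simp [θ, dmap, ← Algebra.algebraMap_eq_smul_one, he']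
  let a'' : Fin n → K := fun l => algebraMap k K (a' l) * h l ^ m l
  have e2 : (dmap c₀.κ).comp θ = (jetAt a'').comp (crd c₀.κ fun l => (h l ^ m l)⁻¹) :=
    ringHom_ext (fun a => by simp [θ, dmap, algebraMap_eq_inl, crd_C, jetAt_C]) fun l => by
      have := pow_ne_zero (m l) (hh l).2.1
      ext <;> simp [θ, dmap, crd_X, jetAt_C, jetAt_X, a'', mul_comm, this,
        ← Algebra.algebraMap_eq_smul_one, c₀.comm]
  rw [← e1]
  obtain ⟨w', hw'⟩ := exists_factor (sp ((dmap e).comp θ) ≫ γ) c'.j (by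
    rw [← sp_closedPoint (fstR k) fun x hx => isUnit_iff_isUnit_fst.2 hx, ← Scheme.Hom.comp_apply,
      sp_comp_assoc, show (fstR k).comp ((dmap e).comp θ) = e.comp constantCoeff from
        ringHom_ext (fun a => by simp [θ, dmap, algebraMap_eq_inl]) fun l => by simp [θ, dmap],
      ← sp_comp_assoc, tot_zero d S hh hγ, he]
    exact ⟨_, rfl⟩)
  rw [← hw']
  congr 2
  ext1 x
  have h3 := ext_of_comp (tot_inj d S hh) c'.j (φ := φ.comp c'.κ)
    (hγ.trans (by rw [← sp_comp_assoc, c'.gen])) hw'.symm x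
  obtain ⟨h4, h5⟩ := ext_jet (κ := c₀.κ) (J := inl (c'.κ x) + inr (∑ l, a'' l * (d l).δ (c'.κ x)))
    (fun p q h7 => by
      have h6 := (S.jet a'' (c'.κ x)).mul (Ext.of (crd c₀.κ (fun l => (h l ^ m l)⁻¹) q))
      rw [show φ (c'.κ x) * ι (crd c₀.κ _ q) = ι (crd c₀.κ _ p) from h7] at h6
      have e3 : ∀ x, dmap c₀.κ (θ x) = jetAt a'' (crd c₀.κ _ x) := DFunLike.congr_fun e2
      rw [e3, e3]
      exact h6.unique S.inj (Ext.of _)) h3
  ext
  · exact h4.unique c₀.inj (by simpa using c₀.transfer c' he (Ext.of x))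
  · rw [h2]
    refine h5.unique c₀.inj ?_
    simp only [snd_add, snd_inl, snd_inr, zero_add]
    refine Ext.sum fun l _ => ?_
    by_cases hl : a l = 0
    · simpa [a'', a', hl] using Ext.zero
    · have := ((Ext.of (algebraMap k _ (a' l))).mul ((Ext.of (b l)).pow (m l))).mul
        (c₀.transfer c' he ((h1 l hl).2 x))
      rwa [c₀.comm, hb, he', div_mul_cancel₀ _ (pow_ne_zero _ (hu l hl))] at this

end

theorem exists_dominating [LocallyOfFiniteType f] [CompactSpace X] [Finite I] [Nonempty I]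
    (H : IsGen η) (hK : η ≫ f = sp (algebraMap k K)) (hc : ∀ i, (c i).Coord)
    (hcov : ∀ x, ∃ i, x ∈ Set.range (c i).j) (hG : Germs f) : ∃ σ : Spray f, σ.Dominating := by
  obtain ⟨n, d, hd⟩ := exists_family (hc := hc) H hK hcov hG
  obtain ⟨m, Ω, _, ι, φ, S⟩ := exists_state (Fin n) d
  let P : X.Opens → Prop := fun U => ∃ hU, ∃ i h, Triv H hK d ⟨U, hU⟩ i h
  let A : {U // P U} → Aff X := fun U => ⟨U.1, U.2.choose⟩
  choose i h T using fun U : {U // P U} => (U.2.choose_spec : ∃ i h, Triv H hK d (A U) i h)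
  choose g hg hg' using fun (U V : {U // P U}) (hle : U ≤ V) l =>
    ((T U).exists_unit H hK d (V := A V) hle (T V) l (m l) : ∃ b : Γ(U.1, ⊤), _)
  have : ∀ U : {U // P U}, IsAffine U.1 := fun U => (A U).2.1
  choose γ hγ hγ' using fun U : {U // P U} => (exists_tot hK d S ((T U).subset H hK d) (T U).2 :
    ∃ γ : Spec (.of (MvPolynomial (Fin n) Γ(U.1, ⊤))) ⟶ X,
      γ ≫ f = sp C ≫ (U.1.toScheme.isoSpec.inv ≫ U.1.ι) ≫ f ∧ _)
  have hz : ∀ U : {U // P U}, zeroSec n U.1 ≫ (isoOfIsAffine (Fin n) U.1).hom ≫ γ U = U.1.ι :=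
    fun U => by
      rw [← cancel_epi U.1.toScheme.isoSpec.inv, ← Category.assoc, inv_zero, Category.assoc,
        Iso.inv_hom_id_assoc]
      exact tot_zero d S (T U).2 (hγ' U)
  refine exists_spray f P (fun x V hx => ?_) (fun U W ⟨hU, i, h, T⟩ hW hle h0 =>
    ⟨⟨hW, h0⟩, i, h, T.mono H hK d hle⟩) g hg (fun U => ?_) (fun U V W h1 h2 => ?_)
    (fun U => (isoOfIsAffine (Fin n) U.1).hom ≫ γ U) (fun U V hle => ?_) (fun U => ?_) hz
    fun v hv => ?_
  · obtain ⟨U, hU, h1, h2⟩ := exists_triv H hK d hcov x V hx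
    exact ⟨U.1, ⟨U.2, hU⟩, h1, h2⟩
  · ext l
    refine (affChart H hK (A U)).inj ((hg' U U le_rfl l).trans ?_)
    rw [div_self ((T U).2 l).2.1, one_pow]
    exact (map_one _).symm
  · ext l
    refine (affChart H hK (A U)).inj ((hg' U W _ l).trans (Eq.trans ?_ (map_mul _ _ _).symm))
    rw [hg', affChart_res H hK (U := A U) (V := A V) h1, hg', ← mul_pow,
      div_mul_div_cancel₀ ((T V).2 l).2.1]
  · rw [← cancel_epi (isoOfIsAffine (Fin n) U.1).inv, Iso.inv_hom_id_assoc, ← Category.assoc (diag _),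
      ← Category.assoc, inv_diag_map, Category.assoc, Iso.inv_hom_id_assoc]
    refine ext_sp (tot_inj d S (T U).2) (Eq.trans ?_ (hγ' U).symm)
    refine (sp_comp_assoc _ _ _).trans (Eq.trans ?_ (hγ' V))
    exact congrArg (fun r => sp r ≫ γ V) (tot_comp (affChart H hK (A U)) (affChart H hK (A V)) _ _
      (fun l => ((T U).2 l).2.1) _ (affChart_res H hK (U := A U) (V := A V) hle) _ (hg' U V hle))
  · rw [Category.assoc, ← cancel_epi (isoOfIsAffine (Fin n) U.1).inv, Iso.inv_hom_id_assoc,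
      ← Category.assoc _ (_ ↘ _), inv_over, Category.assoc]
    exact (hγ U).trans (congrArg _ (Category.assoc _ _ _))
  · obtain ⟨i', w, rfl, hw⟩ := hd v hv
    obtain ⟨U, h1⟩ : ∃ U : {U // P U}, (sp ((fstR k).comp w) ≫ (c i').j) (closedPoint k) ∈ U.1 := by
      obtain ⟨U, hU, h1, -⟩ := exists_triv H hK d hcov
        ((sp ((fstR k).comp w) ≫ (c i').j) (closedPoint k)) ⊤ trivial
      exact ⟨⟨U.1, U.2, hU⟩, h1⟩
    obtain ⟨e, he⟩ := exists_factor (sp ((fstR k).comp w) ≫ (c i').j) (affChart H hK (A U)).j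
      (by rw [range_affChart]; exact h1)
    have he' : e.comp (algebraMap k _) = RingHom.id k := sp_inj (by
      rw [← sp_comp, ← (affChart H hK (A U)).base, ← Category.assoc, he, ← sp_comp_assoc,
        Category.assoc, Category.assoc, ← Category.assoc (sp w), hv]
      exact (sp_comp _ _).trans (congrArg sp (RingHom.ext fun a => rfl)))
    obtain ⟨a, ha⟩ := tot_dom d S ((T U).subset H hK d) (T U).2 (hγ' U)
      (by rw [range_affChart]; exact (T U).1) (c i') w hw e he (DFunLike.congr_fun he')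
    change Γ(U.1, ⊤) →+* k at e
    let θ : MvPolynomial (Fin n) Γ(U.1, ⊤) →+* DualNumber k :=
      eval₂Hom ((inlR k).comp e) fun l => inr (a l)
    refine ⟨U, sp e ≫ U.1.toScheme.isoSpec.inv, sp θ ≫ (isoOfIsAffine (Fin n) U.1).inv,
      (Category.assoc _ _ _).trans (he.trans (sp_comp_assoc _ _ _).symm), ?_, ?_, ?_⟩
    · rw [Category.assoc, inv_over, sp_comp_assoc, eval₂Hom_comp_C]
      exact (sp_comp_assoc _ _ _).symm
    · rw [Category.assoc, inv_zero, sp_comp_assoc]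
      refine (sp_comp_assoc _ _ _).trans ?_
      congr 2
      exact ringHom_ext (fun a => by simp [θ, algebraMap_eq_inl]) fun l => by simp [θ]
    · rw [Category.assoc, Iso.inv_hom_id_assoc]
      exact ha

theorem elliptic_of_germs (hX : SmoothVariety f) (hG : Germs f) : Elliptic f := by
  have := hX.integral
  have := hX.separated
  have := hX.compact
  have := hX.finiteType
  have := hX.smooth
  have := isSeparated_of f
  have : CompactSpace X := QuasiCompact.compactSpace_of_compactSpace f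
  obtain ⟨φ, hφ⟩ := sp_surj (gen X ≫ f)
  let := φ.toAlgebra
  choose c hc hx using exists_coord isGen_gen hφ.symm
  obtain ⟨t, ht⟩ := isCompact_univ.elim_finite_subcover (fun x => Set.range (c x).j)
    (fun x => (c x).j.isOpenEmbedding.isOpen_range) fun x _ => Set.mem_iUnion.2 ⟨x, hx x⟩
  have hcov : ∀ x, ∃ i : t, x ∈ Set.range (c i).j := fun x => by
    obtain ⟨i, hi, h⟩ := Set.mem_iUnion₂.1 (ht (Set.mem_univ x))
    exact ⟨⟨i, hi⟩, h⟩
  have : Nonempty t := ⟨(hcov (genericPoint X)).choose⟩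
  exact ⟨hX, exists_dominating isGen_gen hφ.symm (fun i : t => hc i) hcov hG⟩

end Pool.Agent.MP_e8e0b6_ag
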