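import Pool.Agent.MP_e8e0b6_ag.S.Chart
import Pool.Agent.MP_e8e0b6_ag.Defs

/-!
From local sprays on a scheme to a finite dominating family of data.
-/

set_option linter.unusedSectionVars false

open AlgebraicGeometry CategoryTheory Limits IsLocalRing TrivSqZeroExt

namespace Pool.Agent.MP_e8e0b6_ag

section
variable {A B R Ω K k : Type} [CommRing A] [CommRing B] [CommRing R] [Field Ω] [Field K] [Field k]

/-- Functoriality of the dual numbers. -/
def dmap (κ : A →+* B) : DualNumber A →+* DualNumber B where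
  toFun x := inl (κ x.fst) + inr (κ x.snd)
  map_one' := by ext <;> simp
  map_zero' := by ext <;> simp
  map_add' x y := by ext <;> simp
  map_mul' x y := by ext <;> simp

theorem fst_dmap (κ : A →+* B) (x : DualNumber A) : (dmap κ x).fst = κ x.fst := by simp [dmap]

theorem snd_dmap (κ : A →+* B) (x : DualNumber A) : (dmap κ x).snd = κ x.snd := by simp [dmap]

/-- The projection from the dual numbers. -/
abbrev fstR (A : Type) [CommRing A] : DualNumber A →+* A := (fstHom A A A).toRingHom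

/-- The inclusion in the dual numbers. -/
abbrev inlR (A : Type) [CommRing A] : A →+* DualNumber A := algebraMap A (DualNumber A)

theorem ext_jet {r : R →+* Ω} {θ : R →+* DualNumber A} {κ : A →+* K} {e : A →+* k} {ω : Ω}
    {J : DualNumber K} {j : DualNumber k}
    (h : ∀ p q, ω * r q = r p → J * dmap κ (θ q) = dmap κ (θ p))
    (H : Ext r ((dmap e).comp θ) ω j) : Ext κ e J.fst j.fst ∧ Ext κ e J.snd j.snd := by
  obtain ⟨p, q, hq, h1, h2⟩ := H
  have h3 := h p q h1
  have hq' : IsUnit (e (θ q).fst) := by simpa [isUnit_iff_isUnit_fst, fst_dmap] using hq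
  have h4 : Ext κ e J.fst j.fst := ⟨(θ p).fst, (θ q).fst, hq',
    by simpa [fst_dmap] using congrArg fst h3, by simpa [fst_dmap] using congrArg fst h2⟩
  refine ⟨h4, ((Ext.of (θ p).snd).sub (h4.mul (Ext.of (θ q).snd))).of_mul (Ext.of (θ q).fst) hq'
    ?_ ?_⟩
  · have := congrArg snd h3
    simp only [DualNumber.snd_mul, fst_dmap, snd_dmap] at this
    rw [← this]; ring
  · have := congrArg snd h2
    simp only [DualNumber.snd_mul, RingHom.comp_apply, fst_dmap, snd_dmap] at this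
    rw [← this]; ring

theorem sp_closedPoint [IsLocalRing A] [IsLocalRing B] (φ : A →+* B)
    (h : ∀ a, IsUnit (φ a) → IsUnit a) : sp φ (closedPoint B) = closedPoint A :=
  have : IsLocalHom (CommRingCat.ofHom φ).hom := ⟨h⟩
  Spec_closedPoint

end

open Polynomial

variable {k K : Type} [Field k] [IsAlgClosed k] [Field K] [Algebra k K] {X : Scheme.{0}}
  {f : X ⟶ Spec (.of k)} {η : Spec (.of K) ⟶ X}

/-- Every tangent vector is the derivative of a spray of rank one defined near its base point. -/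
def Germs (f : X ⟶ Spec (.of k)) : Prop :=
  ∀ v : Spec (.of (DualNumber k)) ⟶ X, v ≫ f = epsProj k → ∃ (A : Type) (_ : CommRing A)
    (j : Spec (.of A) ⟶ X) (_ : IsOpenImmersion j) (Φ : Spec (.of A[X]) ⟶ X) (e : A →+* k),
    Φ ≫ f = sp C ≫ j ≫ f ∧ sp constantCoeff ≫ Φ = j ∧
      sp (eval₂RingHom ((inlR k).comp e) DualNumber.eps) ≫ Φ = v

variable [X.IsSeparated] {I : Type} {c : I → Chart f η} {hc : ∀ i, (c i).Coord}

/-- The inclusion of `A[t]` in `K(t)`. -/
noncomputable def polyTo {A : Type} [CommRing A] (κ : A →+* K) : A[X] →+* RatFunc K :=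
  (algebraMap K[X] (RatFunc K)).comp (mapRingHom κ)

theorem polyTo_C {A : Type} [CommRing A] (κ : A →+* K) (a : A) :
    polyTo κ (C a) = algebraMap K _ (κ a) := by simp [polyTo]

theorem polyTo_X {A : Type} [CommRing A] (κ : A →+* K) : polyTo κ Polynomial.X = RatFunc.X := by
  simp [polyTo]

theorem exists_jet (H : IsGen η) (hK : η ≫ f = sp (algebraMap k K)) (c₀ : Chart f η)
    (Φ : Spec (.of c₀.A[X]) ⟶ X) (h1 : Φ ≫ f = sp C ≫ c₀.j ≫ f)
    (h2 : sp constantCoeff ≫ Φ = c₀.j) : ∃ (φ : K →+* RatFunc K) (δ : Derivation k K K),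
      sp (polyTo c₀.κ) ≫ Φ = sp φ ≫ η ∧
      (∀ a : k, φ (algebraMap k K a) = algebraMap K _ (algebraMap k K a)) ∧
      ∀ g, Ext (algebraMap K[X] (RatFunc K)) (aeval (inr 1 : DualNumber K)).toRingHom (φ g)
        (inl g + inr (δ g)) := by
  let rK := algebraMap K[X] (RatFunc K)
  have hrK : Function.Injective rK := IsFractionRing.injective _ _
  let θK : K[X] →+* DualNumber K := (aeval (inr 1 : DualNumber K)).toRingHom
  obtain ⟨w, hw⟩ := exists_val (θ := θK) hrK
  have := loc_iff.1 (loc_dom (θ := θK) hrK)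
  let ρ : c₀.A[X] →+* dom rK θK := (polyTo c₀.κ).codRestrict _ fun x => mem_dom.2 ⟨_, Ext.of _⟩
  have hρ : ∀ x, w (ρ x) = θK (x.map c₀.κ) := fun x => (hw (ρ x)).unique hrK (Ext.of _)
  have h4 : sp ((fstR K).comp w) ≫ sp ρ ≫ Φ = η := by
    refine Eq.trans ?_ c₀.gen
    rw [sp_comp_assoc, ← h2, sp_comp_assoc]
    congr 2
    exact Polynomial.ringHom_ext (fun a => (congrArg fst (hρ _)).trans
      (by simp [θK, algebraMap_eq_inl]))
      ((congrArg fst (hρ _)).trans (by simp [θK]))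
  obtain ⟨φ', hφ'⟩ := H.factor _ (sp ρ ≫ Φ) (by
    refine Eq.trans ?_ (congrArg (fun g => g (closedPoint K)) h4)
    rw [Scheme.Hom.comp_apply (sp ((fstR K).comp w)), sp_closedPoint]
    exact fun a ha => un_iff_isUnit.1 ((hw a).un hrK (isUnit_iff_isUnit_fst.2 ha)))
  let φ := (dom rK θK).subtype.comp φ'
  have h5 : sp (polyTo c₀.κ) ≫ Φ = sp φ ≫ η := by
    rw [← sp_comp_assoc φ', hφ', sp_comp_assoc]; rfl
  have := H.mono
  have h6 : ∀ g, (w (φ' g)).fst = g := DFunLike.congr_fun (sp_cancel η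
    (ρ := ((fstR K).comp w).comp φ') (ρ' := RingHom.id K)
    (by rw [← sp_comp_assoc, hφ', h4, sp_id, Category.id_comp]))
  have h7 : ∀ a : k, φ (algebraMap k K a) = algebraMap K _ (algebraMap k K a) := fun a => by
    have := h5 =≫ f
    rw [Category.assoc, Category.assoc, h1, hK, c₀.base, sp_comp, sp_comp, sp_comp] at this
    rw [← c₀.comm, ← polyTo_C, c₀.comm]
    exact (DFunLike.congr_fun (sp_inj this) a).symm
  have h8 : ∀ a : k, w (φ' (algebraMap k K a)) = inl (algebraMap k K a) := fun a => by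
    refine (hw _).unique hrK ?_
    have := Ext.of (r := rK) (θ := θK) (C (algebraMap k K a))
    change Ext _ _ (φ _) _
    rw [h7]
    simpa [rK, θK, algebraMap_eq_inl] using this
  let δ : Derivation k K K := .mk'
    { toFun := fun g => (w (φ' g)).snd
      map_add' := fun x y => by simp
      map_smul' := fun a x => by simp [Algebra.smul_def, h8] } fun x y => by
    simp [h6, mul_comm]
  refine ⟨φ, δ, h5, h7, fun g => ?_⟩
  have := hw (φ' g)
  rwa [← inl_fst_add_inr_snd_eq (w (φ' g)), h6] at this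

theorem polyTo_mem {A : Type} [CommRing A] [Algebra k A] {κ : A →+* K} {s : Finset A}
    (hs : Algebra.adjoin k (s : Set A) = ⊤) {W : Subring (RatFunc K)}
    (hk : ∀ a : k, algebraMap K _ (κ (algebraMap k A a)) ∈ W)
    (ha : ∀ a ∈ s, algebraMap K _ (κ a) ∈ W) (hX : RatFunc.X ∈ W) (p : A[X]) : polyTo κ p ∈ W := by
  have hA : ∀ a, polyTo κ (C a) ∈ W := fun a => by
    have : a ∈ Algebra.adjoin k (s : Set A) := hs ▸ trivial
    induction this using Algebra.adjoin_induction with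
    | mem a h => exact polyTo_C κ a ▸ ha _ h
    | algebraMap a => rw [polyTo_C]; exact hk a
    | add x y _ _ hx hy => rw [map_add, map_add]; exact W.add_mem hx hy
    | mul x y _ _ hx hy => rw [map_mul, map_mul]; exact W.mul_mem hx hy
  induction p using Polynomial.induction_on' with
  | add p q hp hq => rw [map_add]; exact W.add_mem hp hq
  | monomial n a =>
    rw [← C_mul_X_pow_eq_monomial, map_mul, map_pow, polyTo_X]
    exact W.mul_mem (hA a) (W.pow_mem hX n)

theorem exists_datum_aux (H : IsGen η) (hK : η ≫ f = sp (algebraMap k K))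
    (hcov : ∀ x, ∃ i, x ∈ Set.range (c i).j) (c' : Chart f η) (v : c'.A →+* DualNumber k)
    (c₀ : Chart f η) [Algebra.FiniteType k c₀.A] (Φ : Spec (.of c₀.A[X]) ⟶ X) (e : c₀.A →+* k)
    (h1 : Φ ≫ f = sp C ≫ c₀.j ≫ f) (h2 : sp constantCoeff ≫ Φ = c₀.j)
    (h3 : sp (eval₂RingHom ((inlR k).comp e) DualNumber.eps) ≫ Φ = sp v ≫ c'.j) :
    ∃ d : Datum (mkModel c hc), (∀ b, Ext c'.κ ((fstR k).comp v) (d.δ (c'.κ b)) (v b).snd) ∧
      ∀ g ∈ d.a, g ∈ dom c'.κ ((fstR k).comp v) := by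
  classical
  obtain ⟨s, hs⟩ := Algebra.FiniteType.out (R := k) (A := c₀.A)
  obtain ⟨φ, δ, h5, h7, hjet⟩ := exists_jet H hK c₀ Φ h1 h2
  have hr : Function.Injective (polyTo c₀.κ) :=
    (IsFractionRing.injective _ _).comp (map_injective _ c₀.inj)
  have h9 : sp ((fstR k).comp v) ≫ c'.j = sp e ≫ c₀.j := by
    rw [← sp_comp_assoc v, ← h2, ← h3, sp_comp_assoc, sp_comp_assoc]
    congr 2
    exact Polynomial.ringHom_ext (fun a => by simp) (by simp)
  refine ⟨⟨φ, δ, s.image c₀.κ, h7, hjet, fun W hW hk ha hX => ?_⟩, fun b => ?_, fun g hg => ?_⟩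
  · have hW' := polyTo_mem (κ := c₀.κ) hs (fun a => c₀.comm a ▸ hk a)
      (fun a h => ha _ (Finset.mem_image_of_mem _ h)) hX
    have := loc_iff.1 hW
    obtain ⟨i, hi⟩ := hcov ((sp ((polyTo c₀.κ).codRestrict W hW') ≫ Φ) (closedPoint W))
    refine ⟨i, ?_⟩
    rintro _ ⟨a, rfl⟩
    refine (c i).subset_of_point φ _ ?_ hi a
    rw [sp_comp_assoc]
    exact h5
  · let θ : c₀.A[X] →+* DualNumber c₀.A := eval₂RingHom (inlR _) DualNumber.eps
    have e1 : (dmap e).comp θ = eval₂RingHom ((inlR k).comp e) DualNumber.eps :=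
      Polynomial.ringHom_ext (fun a => by simp [θ, dmap, algebraMap_eq_inl]) (by simp [θ, dmap])
    have e2 : (dmap c₀.κ).comp θ =
        (aeval (inr 1 : DualNumber K)).toRingHom.comp (mapRingHom c₀.κ) :=
      Polynomial.ringHom_ext (fun a => by simp [θ, dmap, algebraMap_eq_inl]) (by simp [θ, dmap])
    have h10 := ext_of_comp hr c'.j (φ := φ.comp c'.κ)
      (h5.trans (by rw [← sp_comp_assoc, c'.gen])) h3 b
    rw [← e1] at h10
    have := (ext_jet (κ := c₀.κ) (J := inl (c'.κ b) + inr (δ (c'.κ b))) (fun p q h => by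
      have h11 := (hjet (c'.κ b)).mul (Ext.of (q.map c₀.κ))
      rw [show φ (c'.κ b) * algebraMap _ _ (q.map c₀.κ) = algebraMap _ _ (p.map c₀.κ) from h] at h11
      have e3 : ∀ x, dmap c₀.κ (θ x) = (aeval (inr 1 : DualNumber K)).toRingHom (x.map c₀.κ) :=
        DFunLike.congr_fun e2
      rw [e3, e3]
      exact h11.unique (IsFractionRing.injective _ _) (Ext.of _)) h10).2
    exact c'.transfer c₀ h9 (by simpa using this)
  · obtain ⟨a, -, rfl⟩ := Finset.mem_image.1 hg
    exact mem_dom.2 ⟨_, c'.transfer c₀ h9 (Ext.of a)⟩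

theorem exists_datum [LocallyOfFiniteType f] (H : IsGen η) (hK : η ≫ f = sp (algebraMap k K))
    (hcov : ∀ x, ∃ i, x ∈ Set.range (c i).j) (hG : Germs f) (c' : Chart f η)
    (v : c'.A →+* DualNumber k) (hv : v.comp (algebraMap k _) = algebraMap k _) :
    ∃ d : Datum (mkModel c hc), (∀ b, Ext c'.κ ((fstR k).comp v) (d.δ (c'.κ b)) (v b).snd) ∧
      ∀ g ∈ d.a, g ∈ dom c'.κ ((fstR k).comp v) := by
  obtain ⟨A, _, j, _, Φ, e, h1, h2, h3⟩ := hG (sp v ≫ c'.j) (by
    rw [Category.assoc, c'.base, sp_comp, hv]; rfl)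
  have := e.domain_nontrivial
  obtain ⟨φ₀, hφ₀⟩ := sp_surj (j ≫ f)
  let := φ₀.toAlgebra
  have : Algebra.FiniteType k (H.mk' hK A j hφ₀.symm).A :=
    (HasRingHomProperty.Spec_iff (P := @LocallyOfFiniteType) (φ := CommRingCat.ofHom φ₀)).1
      (show LocallyOfFiniteType (sp φ₀) from hφ₀ ▸ inferInstance)
  exact exists_datum_aux H hK hcov c' v (H.mk' hK A j hφ₀.symm) Φ e h1 h2 h3

/-- The tangent vector `v` is a combination of the derivatives of the sprays `d` defined at its
base point. -/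
def Span {M : Model k K I} {A σ : Type} [CommRing A] [Fintype σ] (κ : A →+* K)
    (v : A →+* DualNumber k) (d : σ → Datum M) : Prop :=
  ∃ (a : σ → k) (val : σ → A → k), (∀ l, a l ≠ 0 → (∀ g ∈ (d l).a, g ∈ dom κ ((fstR k).comp v)) ∧
    ∀ b, Ext κ ((fstR k).comp v) ((d l).δ (κ b)) (val l b)) ∧ ∀ b, (v b).snd = ∑ l, a l * val l b

theorem Span.extend {M : Model k K I} {A σ τ : Type} [CommRing A] [Fintype σ] [Fintype τ]
    {κ : A →+* K} {v : A →+* DualNumber k} {d : τ → Datum M} {g : σ → τ}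
    (hg : Function.Injective g) (h : Span κ v (d ∘ g)) : Span κ v d := by
  obtain ⟨a, val, h1, h2⟩ := h
  refine ⟨Function.extend g a 0, Function.extend g val 0, fun l hl => ?_, fun b => ?_⟩
  · obtain ⟨l, rfl⟩ : ∃ l', g l' = l := by_contra fun h => hl (Function.extend_apply' _ _ _ h)
    rw [hg.extend_apply] at hl ⊢
    exact h1 l hl
  · rw [h2]
    refine Fintype.sum_of_injective g hg _ _ (fun l hl => ?_) fun l => ?_
    · rw [Function.extend_apply' _ _ _ hl, Pi.zero_apply, zero_mul]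
    · rw [hg.extend_apply, hg.extend_apply]

theorem exists_local_span [LocallyOfFiniteType f] (H : IsGen η) (hK : η ≫ f = sp (algebraMap k K))
    (hcov : ∀ x, ∃ i, x ∈ Set.range (c i).j) (hG : Germs f) (i : I) (e : (c i).A →ₐ[k] k) :
    ∃ (n : ℕ) (d : Fin n → Datum (mkModel c hc)) (s : (c i).A), e s ≠ 0 ∧
      ∀ v : (c i).A →ₐ[k] DualNumber k, (v s).fst ≠ 0 → Span (c i).κ v.toRingHom d := by
  classical
  obtain ⟨n, z, hz⟩ := hc i
  obtain ⟨D, hD, hD'⟩ := exists_partials z hz.formallyEtale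
  let v : Fin n → (c i).A →ₐ[k] DualNumber k := fun l =>
    { toFun := fun b => inl (e b) + inr (e (D l b))
      map_one' := by simp
      map_zero' := by simp
      map_add' := fun x y => by ext <;> simp
      map_mul' := fun x y => by ext <;> simp [mul_comm]
      commutes' := fun a => by simp [algebraMap_eq_inl] }
  have hv : ∀ l, (fstR k).comp (v l).toRingHom = (e : _ →+* k) :=
    fun l => RingHom.ext fun b => by simp [v]
  choose d hd hd' using fun l => exists_datum (hc := hc) H hK hcov hG (c i) (v l).toRingHom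
    (v l).comp_algebraMap
  simp only [hv] at hd hd'
  set κ := (c i).κ
  have hκ : Function.Injective κ := (c i).inj
  obtain ⟨s, hs, hse⟩ := exists_den (r := κ) (p := kerPt e) (S := (⋃ l, ((d l).a : Set K)) ∪
      Set.range fun x : Fin n × Fin n => (d x.1).δ (κ (z (.X x.2))))
    ((Set.finite_iUnion fun l => Finset.finite_toSet _).union (Set.finite_range _)) (by
      have : ∀ ω t, Ext κ (e : _ →+* k) ω t → ω ∈ locS κ (kerPt e) :=
        fun ω t ⟨p, q, h1, h2, _⟩ => ⟨p, q, h1.ne_zero, h2⟩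
      rintro ω (h | ⟨x, rfl⟩)
      · obtain ⟨l, hl⟩ := Set.mem_iUnion.1 h
        obtain ⟨t, ht⟩ := mem_dom.1 (hd' l ω hl)
        exact this _ _ ht
      · exact this _ _ (hd _ _))
  choose N hN using fun l l' => hs _ (Or.inr ⟨(l, l'), rfl⟩)
  have hN' : ∀ (e' : (c i).A →+* k), e' s ≠ 0 → ∀ l l',
      Ext κ e' ((d l).δ (κ (z (.X l')))) (e' (N l l') / e' s) := fun e' h l l' =>
    ⟨_, s, h.isUnit, hN l l', div_mul_cancel₀ _ h⟩
  have hdet : e (Matrix.of N).det ≠ 0 := by
    have : (e : _ →+* k).mapMatrix (Matrix.of N) = Matrix.diagonal fun _ => e s := by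
      ext l l'
      have := (hN' e hse l l').unique hκ (hd l _)
      rw [div_eq_iff (show (e : _ →+* k) s ≠ 0 from hse)] at this
      simpa [v, hD, Matrix.diagonal_apply, apply_ite] using this
    rw [show e (Matrix.of N).det = _ from (e : (c i).A →+* k).map_det (Matrix.of N), this]
    simpa using fun h : e s = 0 => absurd h hse
  refine ⟨n, d, s * (Matrix.of N).det, by rw [map_mul]; exact mul_ne_zero hse hdet, fun w hw => ?_⟩
  let e' := (fstR k).comp w.toRingHom
  have hw' : e' s ≠ 0 ∧ e' (Matrix.of N).det ≠ 0 := by simpa [e'] using hw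
  rw [RingHom.map_det] at hw'
  obtain ⟨a, ha⟩ := (Matrix.vecMul_surjective_iff_isUnit.2 ((Matrix.isUnit_iff_isUnit_det _).2
    hw'.2.isUnit)) fun l => e' s * (w (z (.X l))).snd
  refine ⟨a, fun l b => ∑ l', e' (D l' b) * (e' (N l l') / e' s), fun l _ => ⟨fun g hg => ?_,
    fun b => ?_⟩, fun b => ?_⟩
  · obtain ⟨p, hp⟩ := hs g (Or.inl (Set.mem_iUnion.2 ⟨l, hg⟩))
    exact mem_dom.2 ⟨_, p, s, hw'.1.isUnit, hp, div_mul_cancel₀ _ hw'.1⟩
  · have := hD' K κ ((d l).δ.toLinearMap.toAddMonoidHom.comp κ.toAddMonoidHom)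
      (fun r => by simp [κ, (c i).comm]) (fun a b => by simp) b
    rw [show (d l).δ (κ b) = _ from this]
    exact Ext.sum fun l' _ => (Ext.of _).mul (hN' e' hw'.1 l l')
  · have := hD' k e' ((sndHom k k).toAddMonoidHom.comp w.toRingHom.toAddMonoidHom)
      (fun r => by simp [algebraMap_eq_inl]) (fun a b => by simp [e', mul_comm]) b
    refine this.trans ?_
    simp_rw [Finset.mul_sum]
    rw [Finset.sum_comm]
    refine Finset.sum_congr rfl fun l' _ => ?_
    have h1 : ∑ l, a l * e' (N l l') = e' s * (w (z (.X l'))).snd := congrFun ha l'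
    simp_rw [mul_left_comm (a _), ← mul_div_assoc]
    rw [← Finset.sum_div, ← Finset.mul_sum, h1, mul_div_assoc, mul_div_cancel_left₀ _ hw'.1]
    rfl

theorem exists_family [LocallyOfFiniteType f] [CompactSpace X] (H : IsGen η)
    (hK : η ≫ f = sp (algebraMap k K)) (hcov : ∀ x, ∃ i, x ∈ Set.range (c i).j) (hG : Germs f) :
    ∃ (n : ℕ) (d : Fin n → Datum (mkModel c hc)), ∀ v : Spec (.of (DualNumber k)) ⟶ X,
      v ≫ f = epsProj k → ∃ (i : I) (w : (c i).A →+* DualNumber k),
        sp w ≫ (c i).j = v ∧ Span (c i).κ w d := by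
  classical
  choose n d s hs hd using exists_local_span (hc := hc) H hK hcov hG
  let U : (Σ i, (c i).A →ₐ[k] k) → X.Opens := fun τ =>
    (c τ.1).j ''ᵁ PrimeSpectrum.basicOpen (s τ.1 τ.2)
  obtain ⟨t, ht⟩ := isCompact_univ.elim_finite_subcover (fun τ => (U τ : Set X))
    (fun τ => (U τ).2) fun x _ => by
      obtain ⟨i, p, rfl⟩ := hcov x
      have := (hc i).finiteType
      obtain ⟨e, he⟩ := exists_point (k := k) p.asIdeal p.2.ne_top
      exact Set.mem_iUnion.2 ⟨⟨i, e⟩, p, fun h => hs i e (he h), rfl⟩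
  let ε := Fintype.equivFin (Σ τ : t, Fin (n τ.1.1 τ.1.2))
  refine ⟨_, fun l => d _ _ (ε.symm l).2, fun v hv => ?_⟩
  obtain ⟨⟨i, e⟩, hτ, p, hp, h1⟩ : ∃ τ ∈ t, v (closedPoint _) ∈ U τ := by
    simpa using ht (Set.mem_univ (v (closedPoint _)))
  obtain ⟨w, hw⟩ := exists_factor v (c i).j ⟨p, h1⟩
  have h2 : w.comp (algebraMap k _) = algebraMap k _ :=
    sp_inj (by rw [← sp_comp, ← (c i).base, ← Category.assoc, hw, hv]; rfl)
  refine ⟨i, w, hw, Span.extend (g := fun l => ε ⟨⟨_, hτ⟩, l⟩)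
    (ε.injective.comp sigma_mk_injective) ?_⟩
  have h3 : sp w (closedPoint _) = p := (c i).j.isOpenEmbedding.injective (by
    rw [← Scheme.Hom.comp_apply, hw]; exact h1.symm)
  have := hd i e ⟨w, DFunLike.congr_fun h2⟩ fun h => hp (by
    rw [← h3]
    exact (mem_maximalIdeal _).2 fun h' => (isUnit_iff_isUnit_fst.1 h').ne_zero h)
  convert this using 1
  ext1 l
  simp only [Function.comp_apply]
  rw [ε.symm_apply_apply]

end Pool.Agent.MP_e8e0b6_ag
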