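import Pool.Agent.MP_e8e0b6_ag.G.Basic

/-!
Morphisms from affine schemes described through subrings of fields.
-/

set_option linter.unusedSectionVars false

open AlgebraicGeometry CategoryTheory Limits IsLocalRing

namespace Pool.Agent.MP_e8e0b6_ag

variable {R T A B Ω : Type} [CommRing R] [CommRing T] [CommRing A] [CommRing B] [Field Ω]
  {X : Scheme.{0}}

/-- The morphism of spectra attached to a ring homomorphism. -/
noncomputable abbrev sp (φ : R →+* T) : Spec (.of T) ⟶ Spec (.of R) :=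
  Spec.map (CommRingCat.ofHom φ)

@[reassoc]
theorem sp_comp (φ : R →+* T) (ψ : T →+* A) : sp ψ ≫ sp φ = sp (ψ.comp φ) := by
  rw [← Spec.map_comp]; rfl

theorem sp_id : sp (RingHom.id R) = 𝟙 _ := Spec.map_id _

theorem sp_inj {φ ψ : R →+* T} (h : sp φ = sp ψ) : φ = ψ :=
  congrArg CommRingCat.Hom.hom (Spec.map_injective h)

theorem sp_surj (g : Spec (.of T) ⟶ Spec (.of R)) : ∃ φ, sp φ = g :=
  ⟨(Spec.preimage g).hom, Spec.map_preimage g⟩

theorem isDominant_sp {φ : R →+* T} (h : Function.Injective φ) : IsDominant (sp φ) :=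
  ⟨(PrimeSpectrum.denseRange_comap_iff_ker_le_nilRadical φ).2
    (by rw [(RingHom.injective_iff_ker_eq_bot _).1 h]; exact bot_le)⟩

theorem ext_sp [X.IsSeparated] {r : R →+* Ω} (hr : Function.Injective r) {g g' : Spec (.of R) ⟶ X}
    (h : sp r ≫ g = sp r ≫ g') : g = g' := by
  have := isDominant_sp hr
  have := hr.isDomain r
  exact ext_of_isDominant (sp r) h

theorem isSeparated_of {k : Type} [CommRing k] (f : X ⟶ Spec (.of k)) [IsSeparated f] :
    X.IsSeparated := ⟨by rw [← terminal.comp_from f]; infer_instance⟩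

theorem exists_factor [IsLocalRing T] (q : Spec (.of T) ⟶ X) (j : Spec (.of A) ⟶ X)
    [IsOpenImmersion j] (h : q (closedPoint T) ∈ Set.range j) : ∃ ρ : A →+* T, sp ρ ≫ j = q := by
  have h1 := Scheme.preimage_eq_top_of_closedPoint_mem q (U := j.opensRange) h
  obtain ⟨ρ, hρ⟩ := sp_surj (IsOpenImmersion.lift j q (by
    rintro _ ⟨x, rfl⟩
    exact (h1.ge trivial : x ∈ q ⁻¹ᵁ j.opensRange)))
  exact ⟨ρ, by rw [hρ, IsOpenImmersion.lift_fac]⟩

theorem sp_cancel (j : Spec (.of A) ⟶ X) [Mono j] {ρ ρ' : A →+* T} (h : sp ρ ≫ j = sp ρ' ≫ j) :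
    ρ = ρ' := sp_inj ((cancel_mono j).1 h)

variable {r : R →+* Ω} {θ : R →+* T}

theorem comp_eq [X.IsSeparated] (hr : Function.Injective r) {γ : Spec (.of R) ⟶ X}
    {η : Spec (.of B) ⟶ X} {φ : B →+* Ω} (h : sp r ≫ γ = sp φ ≫ η) {ρ : B →+* T}
    (H : ∀ b, Ext r θ (φ b) (ρ b)) : sp θ ≫ γ = sp ρ ≫ η := by
  obtain ⟨v, hv⟩ := exists_val (θ := θ) hr
  let r' : R →+* dom r θ := r.codRestrict _ fun x => mem_dom.2 ⟨_, Ext.of x⟩
  let φ' : B →+* dom r θ := φ.codRestrict _ fun x => mem_dom.2 ⟨_, H x⟩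
  have h1 : sp r' ≫ γ = sp φ' ≫ η := ext_sp (r := (dom r θ).subtype) Subtype.val_injective (by
    rw [sp_comp_assoc, sp_comp_assoc]; exact h)
  have h2 : θ = v.comp r' := RingHom.ext fun x => (Ext.of x).unique hr (hv (r' x))
  have h3 : ρ = v.comp φ' := RingHom.ext fun x => (H x).unique hr (hv (φ' x))
  rw [h3]
  conv_lhs => rw [h2]
  rw [← sp_comp_assoc, ← sp_comp_assoc, h1]

theorem ext_of_comp [IsLocalRing T] (hr : Function.Injective r) {γ : Spec (.of R) ⟶ X}
    (j : Spec (.of A) ⟶ X) [IsOpenImmersion j] {φ : A →+* Ω} (h : sp r ≫ γ = sp φ ≫ j)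
    {ρ : A →+* T} (h' : sp θ ≫ γ = sp ρ ≫ j) (a : A) : Ext r θ (φ a) (ρ a) := by
  obtain ⟨v, hv⟩ := exists_val (θ := θ) hr
  let r' : R →+* dom r θ := r.codRestrict _ fun x => mem_dom.2 ⟨_, Ext.of x⟩
  have h2 : v.comp r' = θ := RingHom.ext fun x => (hv (r' x)).unique hr (Ext.of x)
  have := loc_iff.1 (loc_dom (θ := θ) hr)
  have : IsLocalHom (CommRingCat.ofHom v).hom := ⟨fun x hx => un_iff_isUnit.1 ((hv x).un hr hx)⟩
  obtain ⟨ρ', hρ⟩ := exists_factor (sp r' ≫ γ) j (by
    have e : sp v (closedPoint T) = closedPoint (dom r θ) := Spec_closedPoint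
    rw [← e, ← Scheme.Hom.comp_apply, sp_comp_assoc, h2, h']
    exact ⟨_, rfl⟩)
  have h3 : (dom r θ).subtype.comp ρ' = φ := sp_cancel j (by
    rw [← sp_comp_assoc, hρ, sp_comp_assoc]; exact h)
  have h4 : v.comp ρ' = ρ := sp_cancel j (by rw [← sp_comp_assoc, hρ, sp_comp_assoc, h2, h'])
  rw [← h3, ← h4]
  exact hv (ρ' a)

/-- A point with values in the field `Ω` that extends to all local overrings of `R` extends to `R`. -/
theorem exists_glue {S : Scheme.{0}} [X.IsSeparated] [S.IsSeparated] (hr : Function.Injective r)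
    (sR : Spec (.of R) ⟶ S) (sX : X ⟶ S) [LocallyOfFiniteType sX] (φ : Spec (.of Ω) ⟶ X)
    (h0 : φ ≫ sX = sp r ≫ sR) (h : ∀ (p : Ideal R) [p.IsPrime],
      ∃ ψ : Spec (.of (locS r p)) ⟶ X, sp (locS r p).subtype ≫ ψ = φ) :
    ∃ γ : Spec (.of R) ⟶ X, γ ≫ sX = sR ∧ sp r ≫ γ = φ := by
  have := hr.isDomain r
  have := isDominant_sp hr
  have key : ∀ p : Spec (.of R), ∃ (ρ : (Spec (.of R)).presheaf.stalk p ⟶ .of Ω)
      (ψ : Spec ((Spec (.of R)).presheaf.stalk p) ⟶ X), IsDominant (Spec.map ρ) ∧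
      Spec.map ρ ≫ Scheme.fromSpecStalk _ p = sp r ∧ Spec.map ρ ≫ ψ = φ := fun p => by
    obtain ⟨ψ, hψ⟩ := h p.asIdeal
    let O := (Spec (.of R)).presheaf.stalk p
    let _ : Algebra R O := (StructureSheaf.toStalk R p).hom.toAlgebra
    have : IsLocalization.AtPrime O p.asIdeal := StructureSheaf.IsLocalization.to_stalk R p
    let r' : R →+* locS r p.asIdeal := r.codRestrict _ map_mem_locS
    let _ := r'.toAlgebra
    have : IsLocalization.AtPrime (locS r p.asIdeal) p.asIdeal :=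
      ⟨fun y => un_iff_isUnit.1 ((un_locS hr).2 y.2), fun ⟨z, a, s, hs, e⟩ =>
        ⟨(a, ⟨s, hs⟩), Subtype.ext e⟩, fun h => ⟨1, by rw [hr (congrArg Subtype.val h)]⟩⟩
    let e := IsLocalization.algEquiv p.asIdeal.primeCompl O (locS r p.asIdeal)
    refine ⟨CommRingCat.ofHom ((locS r p.asIdeal).subtype.comp e.toRingEquiv.toRingHom),
      sp e.symm.toRingEquiv.toRingHom ≫ ψ, isDominant_sp (Subtype.val_injective.comp e.injective),
      ?_, ?_⟩
    · rw [Spec.fromSpecStalk_eq']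
      refine (Spec.map_comp _ _).symm.trans ?_
      congr 1
      ext x
      exact congrArg Subtype.val (e.commutes x)
    · rw [← hψ]
      refine (sp_comp_assoc _ _ _).trans ?_
      congr 2
      ext x
      exact congrArg Subtype.val (e.apply_symm_apply x)
  choose ρ ψ hd hρ hψ using key
  choose U hU f h1 h2 using fun p => spread_out_of_isGermInjective' sR sX (ψ p)
    (ext_of_isDominant (Spec.map (ρ p))
      (by rw [← Category.assoc, hψ, h0, ← Category.assoc, hρ]))
  let 𝒰 : (Spec (.of R)).OpenCover := Scheme.Cover.mkOfCovers _ (fun p => U p) (fun p => (U p).ι)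
    fun p => ⟨p, ⟨p, hU p⟩, rfl⟩
  let g : ∀ p, Spec (.of Ω) ⟶ U p := fun p =>
    Spec.map (ρ p) ≫ (U p).fromSpecStalkOfMem p (hU p)
  have hg : ∀ p, g p ≫ (U p).ι = sp r := fun p => by
    rw [Category.assoc, Scheme.Opens.fromSpecStalkOfMem_ι, hρ]
  have hf : ∀ p, g p ≫ f p = φ := fun p => by rw [Category.assoc, ← h1, hψ]
  let γ := 𝒰.glueMorphisms f fun p q => by
    change pullback.fst (U p).ι (U q).ι ≫ _ = pullback.snd (U p).ι (U q).ι ≫ _
    let l := pullback.lift _ _ ((hg p).trans (hg q).symm)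
    have h3 : IsDominant (l ≫ pullback.fst (U p).ι (U q).ι ≫ (U p).ι) := by
      rw [pullback.lift_fst_assoc, hg]
      infer_instance
    have := IsDominant.of_comp_of_isOpenImmersion l (pullback.fst (U p).ι (U q).ι ≫ (U p).ι)
    have := isReduced_of_isOpenImmersion (pullback.fst (U p).ι (U q).ι ≫ (U p).ι)
    refine ext_of_isDominant l ?_
    rw [pullback.lift_fst_assoc, pullback.lift_snd_assoc, hf, hf]
  have hγ : ∀ p, (U p).ι ≫ γ = f p := fun p => 𝒰.ι_glueMorphisms _ _ p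
  have h4 : sp r ≫ γ = φ := by
    rw [← hg ⟨⊥, Ideal.isPrime_bot⟩, Category.assoc, hγ, hf]
  exact ⟨γ, ext_of_isDominant (sp r) (by rw [← Category.assoc, h4, h0]), h4⟩

section
variable [IsIntegral X]

variable (X) in
/-- The generic point. -/
noncomputable def gen : Spec (.of X.functionField) ⟶ X := X.fromSpecStalk (genericPoint X)

instance : Mono (gen X) := inferInstanceAs (Mono (X.fromSpecStalk _))

theorem gen_closedPoint : gen X (closedPoint X.functionField) = genericPoint X :=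
  Scheme.fromSpecStalk_closedPoint

instance : IsDominant (gen X) := ⟨by
  refine (Dense.mono ?_ (dense_iff_closure_eq.mpr (genericPoint_spec X)))
  rintro _ rfl
  exact ⟨_, gen_closedPoint⟩⟩

theorem exists_gen_factor [IsLocalRing T] (q : Spec (.of T) ⟶ X)
    (h : q (closedPoint T) = genericPoint X) : ∃ φ : X.functionField →+* T, sp φ ≫ gen X = q := by
  refine ⟨(X.presheaf.stalkSpecializes (h ▸ specializes_rfl) ≫ Scheme.stalkClosedPointTo q).hom, ?_⟩
  rw [sp, CommRingCat.ofHom_hom, Spec.map_comp, Category.assoc, gen,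
    Scheme.SpecMap_stalkSpecializes_fromSpecStalk, Scheme.Spec_stalkClosedPointTo_fromSpecStalk]

theorem isDomain_chart [Nontrivial A] (j : Spec (.of A) ⟶ X) [IsOpenImmersion j] : IsDomain A := by
  have := isIntegral_of_isOpenImmersion j
  exact (affine_isIntegral_iff (.of A)).1 this

theorem exists_chart [IsDomain A] (j : Spec (.of A) ⟶ X) [IsOpenImmersion j] :
    ∃ κ : A →+* X.functionField, sp κ ≫ j = gen X ∧ Function.Injective κ ∧ ∀ f, f ∈ locS κ ⊥ := by
  obtain ⟨κ, hκ⟩ := exists_factor (gen X) j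
    ⟨_, (genericPoint_eq_of_isOpenImmersion j).trans gen_closedPoint.symm⟩
  let L := FractionRing A
  obtain ⟨φ, hφ⟩ := exists_gen_factor (sp (algebraMap A L) ≫ j) (by
    rw [Scheme.Hom.comp_apply, ← genericPoint_eq_of_isOpenImmersion j,
      genericPoint_eq_bot_of_affine]
    congr 1
    refine PrimeSpectrum.ext ?_
    change (maximalIdeal L).comap (algebraMap A L) = ⊥
    rw [maximalIdeal_eq_bot, Ideal.comap_bot_of_injective _ (IsFractionRing.injective A L)])
  have e : φ.comp κ = algebraMap A L := sp_cancel j (by rw [← sp_comp_assoc, hκ, hφ])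
  have e' : ∀ a, φ (κ a) = algebraMap A L a := DFunLike.congr_fun e
  refine ⟨κ, hκ, fun a b h => IsFractionRing.injective A L (by rw [← e', ← e', h]), fun f => ?_⟩
  obtain ⟨⟨a, s⟩, h⟩ := IsLocalization.surj (nonZeroDivisors A) (φ f)
  exact ⟨a, s, by simp,
    φ.injective (by rw [map_mul, e', e']; exact h)⟩

end

end Pool.Agent.MP_e8e0b6_ag
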