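import Pool.Agent.MP_e8e0b6_ag.S.Tools
import Pool.Agent.MP_e8e0b6_ag.G.Step
import Pool.Agent.MP_e8e0b6_ag.QS.Lindel2

/-!
Affine charts of an integral scheme inside its function field.
-/

set_option linter.unusedSectionVars false

open AlgebraicGeometry CategoryTheory Limits IsLocalRing

namespace Pool.Agent.MP_e8e0b6_ag

variable {R K : Type} [CommRing R] [Field K] {X : Scheme.{0}}

/-- `η` is the generic point of the integral scheme `X`, and `K` its function field. -/
structure IsGen (η : Spec (.of K) ⟶ X) : Prop where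
  mono : Mono η
  chart : ∀ (A : Type) [CommRing A] [Nontrivial A] (j : Spec (.of A) ⟶ X) [IsOpenImmersion j],
    ∃ κ : A →+* K, sp κ ≫ j = η ∧ Function.Injective κ ∧ ∀ f, ∃ a s, s ≠ 0 ∧ f * κ s = κ a
  factor : ∀ (T : Type) [CommRing T] [IsLocalRing T] (q : Spec (.of T) ⟶ X),
    q (closedPoint T) = η (closedPoint K) → ∃ φ : K →+* T, sp φ ≫ η = q

theorem isGen_gen [IsIntegral X] : IsGen (gen X) where
  mono := inferInstance
  chart A _ _ j _ := by
    have := isDomain_chart j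
    obtain ⟨κ, h1, h2, h3⟩ := exists_chart j
    exact ⟨κ, h1, h2, fun f => by simpa [mem_locS] using h3 f⟩
  factor T _ _ q h := exists_gen_factor q (h.trans gen_closedPoint)

variable [Algebra R K]

/-- An affine chart over the base ring `R`. -/
structure Chart (f : X ⟶ Spec (.of R)) (η : Spec (.of K) ⟶ X) where
  A : Type
  [ring : CommRing A]
  [dom : IsDomain A]
  [alg : Algebra R A]
  j : Spec (.of A) ⟶ X
  [imm : IsOpenImmersion j]
  κ : A →+* K
  base : j ≫ f = sp (algebraMap R A)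
  gen : sp κ ≫ j = η
  inj : Function.Injective κ
  frac : ∀ ω, ∃ a s, s ≠ 0 ∧ ω * κ s = κ a
  comm : ∀ r, κ (algebraMap R A r) = algebraMap R K r

attribute [instance] Chart.ring Chart.dom Chart.alg Chart.imm

variable {f : X ⟶ Spec (.of R)} {η : Spec (.of K) ⟶ X}

theorem comm_of_over (hK : η ≫ f = sp (algebraMap R K)) {A : Type} [CommRing A] [Algebra R A]
    {j : Spec (.of A) ⟶ X} (h : j ≫ f = sp (algebraMap R A)) {κ : A →+* K} (hκ : sp κ ≫ j = η)
    (r : R) : κ (algebraMap R A r) = algebraMap R K r :=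
  DFunLike.congr_fun (sp_inj (φ := κ.comp (algebraMap R A))
    (by rw [← sp_comp, ← h, ← Category.assoc, hκ, hK])) r

/-- The chart given by an open immersion. -/
noncomputable def IsGen.mk' (H : IsGen η) (hK : η ≫ f = sp (algebraMap R K)) (A : Type)
    [CommRing A] [Nontrivial A] [Algebra R A] (j : Spec (.of A) ⟶ X) [IsOpenImmersion j]
    (h : j ≫ f = sp (algebraMap R A)) : Chart f η where
  A := A
  dom := (H.chart A j).choose_spec.2.1.isDomain _
  j := j
  κ := (H.chart A j).choose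
  base := h
  gen := (H.chart A j).choose_spec.1
  inj := (H.chart A j).choose_spec.2.1
  frac := (H.chart A j).choose_spec.2.2
  comm := comm_of_over hK h (H.chart A j).choose_spec.1

namespace Chart

variable (c c' : Chart f η)

/-- The inclusion of the chart as an algebra map. -/
def κₐ : c.A →ₐ[R] K := { c.κ with commutes' := c.comm }

theorem mem_range {ω : K} : ω ∈ c.κₐ.range ↔ ∃ a, c.κ a = ω := Iff.rfl

theorem le_of_range {W : Subring K} (h : (c.κₐ.range : Set K) ⊆ W) (a : c.A) : c.κ a ∈ W :=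
  h ⟨a, rfl⟩

theorem sep [X.IsSeparated] {W : Subring K} (hW : Loc W) (h : ∀ a, c.κ a ∈ W)
    (h' : ∀ a, c'.κ a ∈ W) (a : c.A) : ∃ s b, Un W (c'.κ s) ∧ c'.κ s * c.κ a = c'.κ b := by
  have := loc_iff.1 hW
  obtain ⟨p, q, h1, h2, -⟩ := ext_of_comp (θ := c'.κ.codRestrict W h') c'.inj c.j
    (c'.gen.trans c.gen.symm) (ρ := c.κ.codRestrict W h)
    (ext_sp (r := W.subtype) Subtype.val_injective (by
      rw [sp_comp_assoc, sp_comp_assoc]; exact c'.gen.trans c.gen.symm)) a
  exact ⟨q, p, un_iff_isUnit.2 h1, (mul_comm _ _).trans h2⟩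

theorem transfer {T : Type} [CommRing T] [IsLocalRing T] {e : c.A →+* T} {e' : c'.A →+* T}
    (h : sp e ≫ c.j = sp e' ≫ c'.j) {ω : K} {t : T} (H : Ext c'.κ e' ω t) : Ext c.κ e ω t :=
  H.trans (RingHom.id K) (ext_of_comp c.inj c'.j (c.gen.trans c'.gen.symm) h)

theorem exists_res (h : Set.range c'.j ⊆ Set.range c.j) :
    ∃ ρ : c.A →+* c'.A, sp ρ ≫ c.j = c'.j ∧ ∀ a, c'.κ (ρ a) = c.κ a := by
  obtain ⟨ρ, hρ⟩ := sp_surj (IsOpenImmersion.lift c.j c'.j h)
  have e : sp ρ ≫ c.j = c'.j := by rw [hρ, IsOpenImmersion.lift_fac]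
  exact ⟨ρ, e, DFunLike.congr_fun (sp_cancel c.j (ρ := c'.κ.comp ρ)
    (by rw [← sp_comp_assoc, e, c'.gen, c.gen]))⟩

/-- A point with values in a local subring lies in a chart. -/
theorem subset_of_point {Ω : Type} [Field Ω] (φ : K →+* Ω) {W : Subring Ω} [IsLocalRing W]
    (q : Spec (.of W) ⟶ X) (hq : sp W.subtype ≫ q = sp φ ≫ η)
    (h : q (closedPoint W) ∈ Set.range c.j) (a : c.A) : φ (c.κ a) ∈ W := by
  obtain ⟨ρ, hρ⟩ := exists_factor q c.j h
  have : W.subtype.comp ρ = φ.comp c.κ := sp_cancel c.j (by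
    rw [← sp_comp_assoc, ← sp_comp_assoc, hρ, c.gen, hq])
  exact (show (ρ a : Ω) = φ (c.κ a) from DFunLike.congr_fun this a) ▸ (ρ a).2

end Chart

theorem exists_piece (g : X ⟶ Spec (.of R)) (x : X) (V : X.Opens) (hx : x ∈ V)
    (Q : ∀ {A B : Type} [CommRing A] [CommRing B], (A →+* B) → Prop)
    (h : ∀ (A : Type) [CommRing A] (j : Spec (.of A) ⟶ X) [IsOpenImmersion j] (φ : R →+* A),
      j ≫ g = sp φ → RingHom.Locally Q φ) :
    ∃ (A : Type) (_ : CommRing A) (j : Spec (.of A) ⟶ X) (_ : IsOpenImmersion j) (φ : R →+* A),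
      x ∈ Set.range j ∧ Set.range j ⊆ V ∧ j ≫ g = sp φ ∧ Q φ := by
  obtain ⟨_, ⟨U, hU, rfl⟩, hxU, hle⟩ := X.isBasis_affineOpens.exists_subset_of_mem_open hx V.2
  let j : Spec (.of Γ(X, U)) ⟶ X := hU.fromSpec
  have : IsOpenImmersion j := inferInstanceAs (IsOpenImmersion hU.fromSpec)
  have hj : Set.range j = U := hU.range_fromSpec
  obtain ⟨φ, hφ⟩ := sp_surj (j ≫ g)
  obtain ⟨s, hs, hQ⟩ := h _ j φ hφ.symm
  obtain ⟨p, rfl⟩ : x ∈ Set.range j := hj ▸ hxU
  obtain ⟨t, ht, htp⟩ : ∃ t ∈ s, t ∉ p.asIdeal := by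
    by_contra! h1
    exact p.2.ne_top (top_le_iff.1 (hs ▸ Ideal.span_le.2 h1))
  refine ⟨Localization.Away t, inferInstance, sp (algebraMap _ _) ≫ j, inferInstance, _, ?_, ?_,
    by rw [Category.assoc, ← hφ, sp_comp], hQ t ht⟩
  · obtain ⟨q, hq⟩ : p ∈ Set.range (PrimeSpectrum.comap (algebraMap _ (Localization.Away t))) := by
      rw [PrimeSpectrum.localization_away_comap_range _ t]; exact htp
    exact ⟨q, congrArg j hq⟩
  · rintro _ ⟨q, rfl⟩
    exact hle (hj ▸ ⟨_, rfl⟩)

theorem isLocalization_locS {A Ω : Type} [CommRing A] [Field Ω] {r : A →+* Ω}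
    (hr : Function.Injective r) (p : Ideal A) [p.IsPrime] :
    letI := (r.codRestrict (locS r p) map_mem_locS).toAlgebra
    IsLocalization.AtPrime (locS r p) p :=
  letI := (r.codRestrict (locS r p) map_mem_locS).toAlgebra
  ⟨fun y => un_iff_isUnit.1 ((un_locS hr).2 y.2), fun ⟨_, a, s, hs, e⟩ =>
    ⟨(a, ⟨s, hs⟩), Subtype.ext e⟩, fun h => ⟨1, by rw [hr (congrArg Subtype.val h)]⟩⟩

theorem exists_point {k A : Type} [Field k] [IsAlgClosed k] [CommRing A] [Algebra k A]
    [Algebra.FiniteType k A] (p : Ideal A) (hp : p ≠ ⊤) : ∃ e : A →ₐ[k] k, p ≤ kerPt e := by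
  obtain ⟨m, hm, hle⟩ := Ideal.exists_le_maximal p hp
  let := Ideal.Quotient.field m
  have := finite_of_finite_type_of_isJacobsonRing k (A ⧸ m)
  refine ⟨(IsAlgClosed.lift : A ⧸ m →ₐ[k] k).comp (Ideal.Quotient.mkₐ k m), fun x hx => ?_⟩
  simp [mem_kerPt, Ideal.Quotient.eq_zero_iff_mem.2 (hle hx)]

theorem finiteType_of_etale {A : Type} [CommRing A] [Algebra R A] {ι : Type} [Finite ι]
    (z : MvPolynomial ι R →ₐ[R] A) (hz : z.toRingHom.Etale) : Algebra.FiniteType R A := by
  algebraize [z.toRingHom]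
  have := IsScalarTower.of_algebraMap_eq' z.comp_algebraMap.symm
  exact .trans (S := MvPolynomial ι R) inferInstance inferInstance

theorem exists_partials {A ι : Type} [CommRing A] [Algebra R A] [Fintype ι] [DecidableEq ι]
    (z : MvPolynomial ι R →ₐ[R] A) (hz : z.toRingHom.FormallyEtale) :
    ∃ D : ι → Derivation R A A, (∀ i l, D i (z (.X l)) = if i = l then 1 else 0) ∧
      ∀ (T : Type) [CommRing T] (ρ : A →+* T) (δ : A →+ T), (∀ r, δ (algebraMap R A r) = 0) →
        (∀ a b, δ (a * b) = ρ a * δ b + ρ b * δ a) → ∀ b, δ b = ∑ l, ρ (D l b) * δ (z (.X l)) := by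
  let e := LinearEquiv.ofBijective _ (dComb_bijective z hz)
  refine ⟨fun i => ((LinearMap.proj i).comp e.symm.toLinearMap).compDer (KaehlerDifferential.D R A),
    fun i l => ?_, fun T _ ρ δ h0 h b => ?_⟩
  · have : e.symm (KaehlerDifferential.D R A (z (.X l))) = Pi.single l 1 := by
      rw [LinearEquiv.symm_apply_eq]; simp [e, dComb]
    simp [this, Pi.single_apply]
  · let := ρ.toAlgebra
    let := (ρ.comp (algebraMap R A)).toAlgebra
    have : IsScalarTower R A T := .of_algebraMap_eq' rfl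
    let d : Derivation R A T := .mk' ⟨δ.toAddHom, fun r a => by
      simp [Algebra.smul_def, h, h0, RingHom.algebraMap_toAlgebra]⟩ fun a b => h a b
    have h1 := congrArg d.liftKaehlerDifferential
      (e.apply_symm_apply (KaehlerDifferential.D R A b))
    rw [Derivation.liftKaehlerDifferential_comp_D] at h1
    refine h1.symm.trans ?_
    simp only [e, LinearEquiv.ofBijective_apply, dComb, Fintype.linearCombination_apply, map_sum,
      map_smul, Derivation.liftKaehlerDifferential_comp_D]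
    rfl

section
variable {k : Type} [Field k] [IsAlgClosed k] [Algebra k K] {f : X ⟶ Spec (.of k)}

/-- The chart has etale coordinates. -/
def Chart.Coord (c : Chart f η) : Prop :=
  ∃ (n : ℕ) (z : MvPolynomial (Fin n) k →ₐ[k] c.A), z.toRingHom.Etale

theorem exists_coord (H : IsGen η) (hK : η ≫ f = sp (algebraMap k K)) [Smooth f] (x : X) :
    ∃ c : Chart f η, c.Coord ∧ x ∈ Set.range c.j := by
  obtain ⟨A, _, j, _, φ, ⟨p, hp⟩, -, h1, h2⟩ := exists_piece f x ⊤ trivial RingHom.IsStandardSmooth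
    fun A _ j _ φ h => RingHom.Smooth.locally_isStandardSmooth
      ((HasRingHomProperty.Spec_iff (P := @Smooth) (φ := CommRingCat.ofHom φ)).1
        (show Smooth (sp φ) from h ▸ inferInstance))
  have : Nontrivial A := PrimeSpectrum.nonempty_iff_nontrivial.1 ⟨p⟩
  let := φ.toAlgebra
  obtain ⟨n, g, hg, hg'⟩ := h2.exists_etale_mvPolynomial
  exact ⟨H.mk' hK A j h1, ⟨n, ⟨g, DFunLike.congr_fun hg⟩, hg'⟩, p, hp⟩

theorem Chart.Coord.finiteType {c : Chart f η} (h : c.Coord) : Algebra.FiniteType k c.A :=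
  let ⟨_, z, hz⟩ := h; finiteType_of_etale z hz

/-- The model attached to a family of charts. -/
def mkModel [X.IsSeparated] {I : Type} (c : I → Chart f η) (hc : ∀ i, (c i).Coord) :
    Model k K I where
  B i := (c i).κₐ.range
  fg i := by simpa using (hc i).finiteType.out.map (c i).κₐ
  frac i ω := by
    obtain ⟨a, s, hs, e⟩ := (c i).frac ω
    exact ⟨_, ⟨s, rfl⟩, (map_ne_zero_iff _ (c i).inj).2 hs, a, e.symm.trans (mul_comm _ _)⟩
  sep i j W hW hi hj := by
    rintro _ ⟨a, rfl⟩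
    obtain ⟨s, b, h1, h2⟩ := (c i).sep (c j) hW ((c i).le_of_range hi) ((c j).le_of_range hj) a
    exact ⟨_, ⟨s, rfl⟩, h1, b, h2.symm⟩
  ufd i W hW hi := by
    have := (hc i).finiteType
    obtain ⟨n, z, hz⟩ := hc i
    obtain ⟨e, he⟩ := exists_point (k := k) (ctr (c i).κ hW ((c i).le_of_range hi))
      (Ideal.IsPrime.ne_top inferInstance)
    let := ((c i).κ.codRestrict (locS (c i).κ (kerPt e)) map_mem_locS).toAlgebra
    have := isLocalization_locS (c i).inj (kerPt e)
    have := loc_iff.1 (loc_locS (p := kerPt e) (c i).inj)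
    refine ⟨locS (c i).κ (kerPt e), loc_locS (c i).inj, ufd_local z hz e _, ?_,
      locS_le ((c i).le_of_range hi) fun s hs => not_not.1 fun h => hs (he h), ?_⟩
    · rintro _ ⟨a, rfl⟩
      exact map_mem_locS _
    · rintro ω ⟨a, s, hs, h⟩
      exact ⟨_, ⟨s, rfl⟩, (un_locS (c i).inj).2 hs, a, h.symm.trans (mul_comm _ _)⟩

end

end Pool.Agent.MP_e8e0b6_ag
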